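import Mathlib
import Pool.Agent.Helper19.P3.Defs
import Pool.Agent.Helper13.PS.LamF

/-!
# PS3, P3-1: the completely additive function
-/

namespace Pool.Agent.Helper19.P3

open Finset Pool.Agent.Helper58.LT

theorem psi1_list (N a : ℕ) : psiS N a = (a.primeFactorsList.map (psi N)).sum := by
  rw [Finset.sum_list_map_count]
  unfold psiS Finsupp.sum
  rw [Nat.support_factorization]
  refine Finset.sum_congr rfl fun p _ => ?_
  rw [Nat.primeFactorsList_count_eq, nsmul_eq_mul]

theorem lam1_list (a : ℕ) : lamS a = (a.primeFactorsList.map lam).sum := by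
  rw [Finset.sum_list_map_count]
  unfold lamS Finsupp.sum
  rw [Nat.support_factorization]
  refine Finset.sum_congr rfl fun p _ => ?_
  rw [Nat.primeFactorsList_count_eq, nsmul_eq_mul]

theorem psiS_one (N : ℕ) : psiS N 1 = 0 := by
  simp [psiS]

theorem psiS_mul {N a b : ℕ} (ha : a ≠ 0) (hb : b ≠ 0) :
    psiS N (a * b) = psiS N a + psiS N b := by
  unfold psiS
  rw [Nat.factorization_mul ha hb]
  refine Finsupp.sum_add_index' (fun p => ?_) (fun p e e' => ?_)
  · simp
  · push_cast
    ring

theorem psiS_prime {N p : ℕ} (hp : p.Prime) : psiS N p = psi N p := by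
  unfold psiS
  rw [hp.factorization, Finsupp.sum_single_index (by simp)]
  simp

theorem psiS_prod {N m : ℕ} (c : Fin m → ℕ) (hc : ∀ j, c j ≠ 0) :
    psiS N (∏ j, c j) = ∑ j, psiS N (c j) := by
  induction m with
  | zero => simp [psiS_one]
  | succ m ih =>
    rw [Fin.prod_univ_succ, Fin.sum_univ_succ, psiS_mul (hc 0)
      (Finset.prod_ne_zero_iff.2 fun j _ => hc _), ih _ fun j => hc _]

theorem psi1_lam_nonneg (N p : ℕ) : 0 ≤ psi N p := by
  unfold psi
  exact Int.floor_nonneg.2 (mul_nonneg (Nat.cast_nonneg _) (lam_nonneg p))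

theorem psiS_nonneg (N a : ℕ) : 0 ≤ psiS N a := by
  rw [psi1_list]
  refine List.sum_nonneg ?_
  intro x hx
  rw [List.mem_map] at hx
  obtain ⟨p, -, rfl⟩ := hx
  exact psi1_lam_nonneg N p

theorem psiS_le (N a : ℕ) : (psiS N a : ℝ) ≤ N * lamS a := by
  rw [psi1_list, lam1_list]
  induction a.primeFactorsList with
  | nil => simp
  | cons p l ih =>
    simp only [List.map_cons, List.sum_cons]
    push_cast
    rw [mul_add]
    refine add_le_add ?_ (by exact_mod_cast ih)
    unfold psi
    exact Int.floor_le _

theorem psiS_ge (N a : ℕ) : (N : ℝ) * lamS a - a.primeFactorsList.length ≤ psiS N a := by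
  rw [psi1_list, lam1_list]
  induction a.primeFactorsList with
  | nil => simp
  | cons p l ih =>
    simp only [List.map_cons, List.sum_cons, List.length_cons]
    push_cast
    have h1 : (N : ℝ) * lam p - 1 ≤ (psi N p : ℝ) := by
      unfold psi
      exact (Int.sub_one_lt_floor _).le
    push_cast at ih
    rw [mul_add]
    linarith

theorem length_le {a M : ℕ} (h0 : a ≠ 0) (h : a ≤ 2 ^ M) : a.primeFactorsList.length ≤ M := by
  have h1 : 2 ^ a.primeFactorsList.length ≤ a.primeFactorsList.prod :=
    List.pow_card_le_prod _ _ fun p hp => (Nat.prime_of_mem_primeFactorsList hp).two_le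
  rw [Nat.prod_primeFactorsList h0] at h1
  exact (Nat.pow_le_pow_iff_right (by norm_num : 1 < 2)).1 (h1.trans h)

theorem psi1_lam_prime_le {p : ℕ} (hp : p.Prime) : lam p ≤ 1 := by
  rw [lam_prime hp]
  have h2 : (2 : ℝ) ≤ p := by exact_mod_cast hp.two_le
  have h3 : (p : ℝ) / (p - 1) ≤ 2 := by
    rw [div_le_iff₀ (by linarith)]
    linarith
  have h4 : 0 < (p : ℝ) / (p - 1) := div_pos (by linarith) (by linarith)
  have h5 := Real.log_le_sub_one_of_pos h4
  linarith

theorem psiS_le_nat {N a M : ℕ} (h0 : a ≠ 0) (h : a ≤ 2 ^ M) : psiS N a ≤ N * M := by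
  have h1 := psiS_le N a
  have h2 : lamS a ≤ a.primeFactorsList.length := by
    rw [lam1_list]
    have : ∀ l : List ℕ, (∀ p ∈ l, p.Prime) → (l.map lam).sum ≤ l.length := by
      intro l
      induction l with
      | nil => intro _; simp
      | cons p l ih =>
        intro hl
        simp only [List.map_cons, List.sum_cons, List.length_cons]
        push_cast
        have h3 := psi1_lam_prime_le (hl p (by simp))
        have h4 := ih fun q hq => hl q (by simp [hq])
        linarith
    exact this _ fun p hp => Nat.prime_of_mem_primeFactorsList hp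
  have h3 : (a.primeFactorsList.length : ℝ) ≤ M := by exact_mod_cast length_le h0 h
  have h4 : (psiS N a : ℝ) ≤ N * M :=
    h1.trans (mul_le_mul_of_nonneg_left (h2.trans h3) (Nat.cast_nonneg _))
  exact_mod_cast h4

theorem lamS_sqfree {a : ℕ} (h : Squarefree a) : lamS a = lam a := by
  have h1 : lamS a = ∑ p ∈ a.primeFactors, lam p := by
    unfold lamS Finsupp.sum
    rw [Nat.support_factorization]
    refine Finset.sum_congr rfl fun p hp => ?_
    have h2 := h.natFactorization_le_one p
    have h3 : a.factorization p ≠ 0 := by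
      rw [← Finsupp.mem_support_iff, Nat.support_factorization]
      exact hp
    have h4 : a.factorization p = 1 := by omega
    beta_reduce
    rw [h4, Nat.cast_one, one_mul]
  rw [h1, ← Pool.Agent.Helper13.PS.lam_prod_finset _ fun p hp => Nat.prime_of_mem_primeFactors hp,
    Nat.prod_primeFactors_of_squarefree h]

/-- spacing -/
theorem spacingS {N a b m D : ℕ} (ha : a ≠ 0) (hb : b ≠ 0) (hma : a.primeFactorsList.length ≤ m)
    (hmb : b.primeFactorsList.length ≤ m) (h : |psiS N a - psiS N b| ≤ D)
    (hN : (D + m) * (a * b) < N) : a = b := by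
  have ha0 : (0 : ℝ) < a := by exact_mod_cast Nat.pos_of_ne_zero ha
  have hb0 : (0 : ℝ) < b := by exact_mod_cast Nat.pos_of_ne_zero hb
  have e1 : ∏ i : Fin a.primeFactorsList.length, (a.primeFactorsList.get i) = a := by
    have := Fin.prod_univ_getElem a.primeFactorsList
    rw [Nat.prod_primeFactorsList ha] at this
    exact this
  have e2 : ∏ i : Fin b.primeFactorsList.length, (b.primeFactorsList.get i) = b := by
    have := Fin.prod_univ_getElem b.primeFactorsList
    rw [Nat.prod_primeFactorsList hb] at this
    exact this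
  have s1 : ∑ i : Fin a.primeFactorsList.length, lam (a.primeFactorsList.get i) = lamS a := by
    rw [lam1_list]
    exact Fin.sum_univ_fun_getElem a.primeFactorsList lam
  have s2 : ∑ i : Fin b.primeFactorsList.length, lam (b.primeFactorsList.get i) = lamS b := by
    rw [lam1_list]
    exact Fin.sum_univ_fun_getElem b.primeFactorsList lam
  rw [← e1, ← e2]
  apply spacing_tuple (Z := (a : ℝ) * b)
  · intro i
    exact (Nat.prime_of_mem_primeFactorsList (List.get_mem _ _)).squarefree
  · intro i
    exact (Nat.prime_of_mem_primeFactorsList (List.get_mem _ _)).squarefree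
  · rw [e1, e2]
  · rw [s1, s2]
    have h1 := psiS_le N a
    have h2 := psiS_ge N a
    have h3 := psiS_le N b
    have h4 := psiS_ge N b
    have h5 : |(psiS N a : ℝ) - psiS N b| ≤ D := by exact_mod_cast h
    have hma' : (a.primeFactorsList.length : ℝ) ≤ m := by exact_mod_cast hma
    have hmb' : (b.primeFactorsList.length : ℝ) ≤ m := by exact_mod_cast hmb
    have hNR : ((D : ℝ) + m) * (a * b) < N := by exact_mod_cast hN
    have hN0 : (0 : ℝ) < N := lt_of_le_of_lt (by positivity) hNR
    have h6 : |(N : ℝ) * (lamS a - lamS b)| ≤ D + m := by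
      rw [abs_le] at h5 ⊢
      constructor <;> linarith [h5.1, h5.2]
    rw [abs_mul, abs_of_pos hN0] at h6
    rw [lt_div_iff₀ (by positivity)]
    generalize |lamS a - lamS b| = w at h6 ⊢
    by_contra hcon
    push Not at hcon
    have h7 : (N : ℝ) * 1 ≤ N * (w * (a * b)) := mul_le_mul_of_nonneg_left hcon hN0.le
    have h8 : (N : ℝ) * w * (a * b) ≤ (D + m) * (a * b) :=
      mul_le_mul_of_nonneg_right h6 (by positivity)
    linarith

end Pool.Agent.Helper19.P3
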