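import Mathlib
import Pool.Agent.Helper13.P3.Psi

/-!
# PS4, K3 for `r ≥ s + 2`: pairs with disjoint cluster parts
-/

namespace Pool.Agent.Helper19.P3

open Finset Pool.Agent.Helper58.LT

theorem PP_mem {β κ p : ℕ} : p ∈ PP β κ ↔ (2 ^ (β - κ) ≤ p ∧ p ≤ 2 ^ (β + κ)) ∧ p.Prime := by
  unfold PP
  rw [mem_filter, mem_Icc]

theorem PP_card_le (β κ : ℕ) : #(PP β κ) ≤ 2 ^ (β + κ) := by
  unfold PP
  refine (card_filter_le _ _).trans ?_
  rw [Nat.card_Icc]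
  have h1 : 1 ≤ 2 ^ (β - κ) := Nat.one_le_two_pow
  generalize 2 ^ (β - κ) = a at h1
  generalize 2 ^ (β + κ) = b
  omega

/-- the determination of the cluster entries, `i` of them -/
theorem key_disj2 (i r s c₀ : ℕ) (hsr : s + r = i + 1) (hs : 2 ≤ s) (hrs : s + 2 ≤ r) :
    ∃ C : ℕ, ∀ β κ : ℕ, Ok i β κ → C * κ ≤ β → ∀ Λ X : Finset ℕ,
      Λ ⊆ Sm κ (s * β + c₀ * κ) → X ⊆ Sm κ ((β + 1) / 2 + c₀ * κ) →
      ∀ Pr : Finset ((ℕ × ℕ) × (ℕ × ℕ)),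
      (∀ z ∈ (Λ ×ˢ (X ×ˢ X) ×ˢ tup (PP β κ) (r - 1)) ×ˢ
          (Λ ×ˢ (X ×ˢ X) ×ˢ tup (PP β κ) (r - 1)),
        psiS (2 ^ ((2 * i + 1) * β)) z.1.1 + (psiS (2 ^ ((2 * i + 1) * β)) z.1.2.1.1 +
          psiS (2 ^ ((2 * i + 1) * β)) z.1.2.1.2) +
            sm' (psiS (2 ^ ((2 * i + 1) * β))) z.1.2.2 =
        psiS (2 ^ ((2 * i + 1) * β)) z.2.1 + (psiS (2 ^ ((2 * i + 1) * β)) z.2.2.1.1 +
          psiS (2 ^ ((2 * i + 1) * β)) z.2.2.1.2) +
            sm' (psiS (2 ^ ((2 * i + 1) * β))) z.2.2.2 →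
        (z.1.2.1, z.2.2.1) ∈ Pr) →
      #{z ∈ (Λ ×ˢ (X ×ˢ X) ×ˢ tup (PP β κ) (r - 1)) ×ˢ
          (Λ ×ˢ (X ×ˢ X) ×ˢ tup (PP β κ) (r - 1)) |
        psiS (2 ^ ((2 * i + 1) * β)) z.1.1 + (psiS (2 ^ ((2 * i + 1) * β)) z.1.2.1.1 +
          psiS (2 ^ ((2 * i + 1) * β)) z.1.2.1.2) +
            sm' (psiS (2 ^ ((2 * i + 1) * β))) z.1.2.2 =
        psiS (2 ^ ((2 * i + 1) * β)) z.2.1 + (psiS (2 ^ ((2 * i + 1) * β)) z.2.2.1.1 +
          psiS (2 ^ ((2 * i + 1) * β)) z.2.2.1.2) +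
            sm' (psiS (2 ^ ((2 * i + 1) * β))) z.2.2.2 ∧
        ∀ j j', z.1.2.2 j ≠ z.2.2.2 j'} ≤
      #Pr * #Λ * #Λ * 2 ^ ((r - s - 1) * β + C * κ) := by
  classical
  refine ⟨2 * i + 3 + (s * s + (r - 1) * (r - 1)) + (r - s - 1), ?_⟩
  intro β κ hok hC Λ X hΛ hX Pr hPr
  have hκ := hok.one
  set N : ℕ := 2 ^ ((2 * i + 1) * β) with hN
  obtain ⟨h0, hh0⟩ : ∃ h0, h0 = r - s - 1 := ⟨_, rfl⟩
  rw [← hh0] at hC ⊢
  have hr1 : r - 1 = h0 + s := by omega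
  have hκβ : κ ≤ β := le_trans (by nlinarith) hC
  set P := PP β κ with hP
  have hPp : ∀ p ∈ P, p.Prime := fun p hp => (PP_mem.1 hp).2
  have hPle : ∀ p ∈ P, p ≤ 2 ^ (β + κ) := fun p hp => (PP_mem.1 hp).1.2
  generalize hm1 : r - 1 = m1 at *
  subst hr1
  -- now tuples have length h0 + s
  set TT := Λ ×ˢ (X ×ˢ X) ×ˢ tup P (h0 + s) with hTT
  set FF : ℕ × (ℕ × ℕ) × (Fin (h0 + s) → ℕ) → ℤ := fun z => psiS N z.1 + (psiS N z.2.1.1 +
    psiS N z.2.1.2) + sm' (psiS N) z.2.2 with hFF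
  set S := {z ∈ TT ×ˢ TT | FF z.1 = FF z.2 ∧ ∀ j j', z.1.2.2 j ≠ z.2.2.2 j'} with hS
  have hmS : ∀ z ∈ S, (z.1.1 ∈ Λ ∧ (z.1.2.1.1 ∈ X ∧ z.1.2.1.2 ∈ X) ∧ ∀ j, z.1.2.2 j ∈ P) ∧
      (z.2.1 ∈ Λ ∧ (z.2.2.1.1 ∈ X ∧ z.2.2.1.2 ∈ X) ∧ ∀ j, z.2.2.2 j ∈ P) ∧
      FF z.1 = FF z.2 ∧ (∀ j j', z.1.2.2 j ≠ z.2.2.2 j') ∧ (z.1.2.1, z.2.2.1) ∈ Pr := by
    intro z hz
    rw [hS, mem_filter] at hz
    have h1 := hPr z hz.1 hz.2.1
    rw [hTT, mem_product, mem_product, mem_product, mem_product, mem_product, mem_product,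
      mem_product] at hz
    obtain ⟨⟨⟨a1, a2, a3⟩, ⟨b1, b2, b3⟩⟩, c1, c2⟩ := hz
    exact ⟨⟨a1, a2, mem_tup.1 a3⟩, ⟨b1, b2, mem_tup.1 b3⟩, c1, c2, h1⟩
  show #S ≤ _
  set Φ : (ℕ × (ℕ × ℕ) × (Fin (h0 + s) → ℕ)) × (ℕ × (ℕ × ℕ) × (Fin (h0 + s) → ℕ)) →
      (((ℕ × ℕ) × (ℕ × ℕ)) × (ℕ × ℕ)) × (Fin h0 → ℕ) := fun z =>
    (((z.1.2.1, z.2.2.1), (z.1.1, z.2.1)), fun j => z.1.2.2 (Fin.castAdd s j)) with hΦ
  have hfib : ∀ z ∈ S, ∀ w ∈ S, Φ z = Φ w →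
      (∀ j : Fin s, ∃ j' : Fin s, z.1.2.2 (Fin.natAdd h0 j) = w.1.2.2 (Fin.natAdd h0 j')) ∧
      (∀ j, ∃ j', z.2.2.2 j = w.2.2.2 j') := by
    intro z hz w hw hzw
    obtain ⟨⟨a1, a2, a3⟩, ⟨b1, b2, b3⟩, c1, c2, c3⟩ := hmS z hz
    obtain ⟨⟨a1', a2', a3'⟩, ⟨b1', b2', b3'⟩, c1', c2', c3'⟩ := hmS w hw
    rw [hΦ] at hzw
    simp only [Prod.mk.injEq] at hzw
    obtain ⟨⟨⟨e1, e2⟩, e3, e4⟩, e5⟩ := hzw
    have hne : ∀ p ∈ P, p ≠ 0 := fun p hp => (hPp p hp).ne_zero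
    -- the products
    set A := (∏ j : Fin s, z.1.2.2 (Fin.natAdd h0 j)) * ∏ j, w.2.2.2 j with hA
    set B := (∏ j : Fin s, w.1.2.2 (Fin.natAdd h0 j)) * ∏ j, z.2.2.2 j with hB
    have hz1 : ∏ j : Fin s, z.1.2.2 (Fin.natAdd h0 j) ≠ 0 :=
      prod_ne_zero_iff.2 fun j _ => hne _ (a3 _)
    have hz2 : ∏ j, z.2.2.2 j ≠ 0 := prod_ne_zero_iff.2 fun j _ => hne _ (b3 _)
    have hw1 : ∏ j : Fin s, w.1.2.2 (Fin.natAdd h0 j) ≠ 0 :=
      prod_ne_zero_iff.2 fun j _ => hne _ (a3' _)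
    have hw2 : ∏ j, w.2.2.2 j ≠ 0 := prod_ne_zero_iff.2 fun j _ => hne _ (b3' _)
    have hA0 : A ≠ 0 := mul_ne_zero hz1 hw2
    have hB0 : B ≠ 0 := mul_ne_zero hw1 hz2
    have hle : ∀ (m : ℕ) (c : Fin m → ℕ), (∀ j, c j ∈ P) → ∏ j, c j ≤ 2 ^ (m * (β + κ)) := by
      intro m c hc
      calc ∏ j, c j ≤ ∏ _j : Fin m, 2 ^ (β + κ) := prod_le_prod' fun j _ => hPle _ (hc j)
        _ = 2 ^ (m * (β + κ)) := by
          rw [prod_const, card_univ, Fintype.card_fin, ← pow_mul, mul_comm]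
    have hssi : s + (h0 + s) = i := by omega
    have hAle : A ≤ 2 ^ (i * (β + κ)) := by
      rw [hA, ← hssi, add_mul s, pow_add]
      exact Nat.mul_le_mul (hle s _ fun j => a3 _) (hle _ _ fun j => b3' _)
    have hBle : B ≤ 2 ^ (i * (β + κ)) := by
      rw [hB, ← hssi, add_mul s, pow_add]
      exact Nat.mul_le_mul (hle s _ fun j => a3' _) (hle _ _ fun j => b3 _)
    have hsplit : ∀ c : Fin (h0 + s) → ℕ, sm' (psiS N) c =
        (∑ j : Fin h0, psiS N (c (Fin.castAdd s j))) + ∑ j : Fin s, psiS N (c (Fin.natAdd h0 j)) := by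
      intro c
      unfold sm'
      rw [Fin.sum_univ_add]
    have hpsi : psiS N A = psiS N B := by
      rw [hA, hB, psiS_mul hz1 hw2, psiS_mul hw1 hz2, psiS_prod _ fun j => hne _ (a3 _),
        psiS_prod _ fun j => hne _ (b3' _), psiS_prod _ fun j => hne _ (a3' _),
        psiS_prod _ fun j => hne _ (b3 _)]
      rw [hFF] at c1 c1'
      beta_reduce at c1 c1'
      rw [hsplit z.1.2.2] at c1
      rw [hsplit w.1.2.2] at c1'
      rw [← e1, ← e2, ← e3, ← e4] at c1'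
      have e5' : ∑ j : Fin h0, psiS N (z.1.2.2 (Fin.castAdd s j)) =
          ∑ j : Fin h0, psiS N (w.1.2.2 (Fin.castAdd s j)) :=
        sum_congr rfl fun j _ => by rw [congrFun e5 j]
      rw [← e5'] at c1'
      unfold sm' at c1 c1'
      linarith
    have hiM : ∀ a : ℕ, a ≤ 2 ^ (i * (β + κ)) → a ≤ 2 ^ ((8 * i + 16) * β) := by
      intro a ha
      refine ha.trans (Nat.pow_le_pow_right (by norm_num) ?_)
      nlinarith
    have hAB : A = B := by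
      refine spacingS (m := (8 * i + 16) * β) (D := 0) hA0 hB0 (length_le hA0 (hiM _ hAle))
        (length_le hB0 (hiM _ hBle)) (by rw [hpsi]; simp) ?_
      calc (0 + (8 * i + 16) * β) * (A * B) < 2 ^ κ * (2 ^ (i * (β + κ)) * 2 ^ (i * (β + κ))) := by
            have h1 : 0 + (8 * i + 16) * β < 2 ^ κ := by have := hok.po; omega
            have h2 : A * B ≤ 2 ^ (i * (β + κ)) * 2 ^ (i * (β + κ)) := Nat.mul_le_mul hAle hBle
            have h3 : 0 < A * B := Nat.mul_pos (Nat.pos_of_ne_zero hA0) (Nat.pos_of_ne_zero hB0)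
            exact Nat.mul_lt_mul_of_lt_of_le h1 h2 (by positivity)
        _ = 2 ^ (2 * i * β + (2 * i + 1) * κ) := by
            rw [← pow_add, ← pow_add]
            congr 1
            ring
        _ ≤ 2 ^ ((2 * i + 1) * β) := by
            apply Nat.pow_le_pow_right (by norm_num)
            have : (2 * i + 1) * κ ≤ β := le_trans (Nat.mul_le_mul_right κ (by omega)) hC
            nlinarith
    have hfin : ∀ (m : ℕ) (c : Fin m → ℕ), (∀ j, c j ∈ P) → ∀ q, q.Prime → q ∣ ∏ j, c j →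
        ∃ j, q = c j := by
      intro m c hc q hq hd
      obtain ⟨j, -, hj⟩ := (Prime.dvd_finsetProd_iff hq.prime _).1 hd
      exact ⟨j, (Nat.prime_dvd_prime_iff_eq hq (hPp _ (hc j))).1 hj⟩
    constructor
    · intro j
      have hq := hPp _ (a3 (Fin.natAdd h0 j))
      have hd : z.1.2.2 (Fin.natAdd h0 j) ∣ B := by
        rw [← hAB, hA]
        exact dvd_mul_of_dvd_left (dvd_prod_of_mem (fun j => z.1.2.2 (Fin.natAdd h0 j))
          (mem_univ j)) _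
      rcases (Nat.Prime.dvd_mul hq).1 hd with h1 | h1
      · exact hfin s (fun j => w.1.2.2 (Fin.natAdd h0 j)) (fun j => a3' _) _ hq h1
      · obtain ⟨j', hj'⟩ := hfin _ _ b3 _ hq h1
        exact absurd hj' (c2 _ _)
    · intro j
      have hq := hPp _ (b3 j)
      have hd : z.2.2.2 j ∣ A := by
        rw [hAB, hB]
        exact dvd_mul_of_dvd_right (dvd_prod_of_mem (fun j => z.2.2.2 j) (mem_univ j)) _
      rcases (Nat.Prime.dvd_mul hq).1 hd with h1 | h1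
      · obtain ⟨j', hj'⟩ := hfin s (fun j => z.1.2.2 (Fin.natAdd h0 j)) (fun j => a3 _) _ hq h1
        exact absurd hj'.symm (c2 _ _)
      · exact hfin _ _ b3' _ hq h1
  have hcard : #S ≤ s ^ s * (h0 + s) ^ (h0 + s) * #(S.image Φ) := by
    refine card_le_mul_card_image (f := Φ) _ _ ?_
    intro a ha
    rw [mem_image] at ha
    obtain ⟨w, hw, rfl⟩ := ha
    calc #{z ∈ S | Φ z = Φ w}
        ≤ #(tup (univ.image fun j : Fin s => w.1.2.2 (Fin.natAdd h0 j)) s ×ˢ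
            tup (univ.image fun j => w.2.2.2 j) (h0 + s)) := by
          refine card_le_card_of_injOn
            (fun z => (fun j : Fin s => z.1.2.2 (Fin.natAdd h0 j), z.2.2.2)) ?_ ?_
          · intro z hz
            rw [mem_coe, mem_filter] at hz
            obtain ⟨h1, h2⟩ := hfib z hz.1 w hw hz.2
            rw [mem_coe, mem_product]
            refine ⟨mem_tup.2 fun j => ?_, mem_tup.2 fun j => ?_⟩
            · obtain ⟨j', hj'⟩ := h1 j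
              exact mem_image.2 ⟨j', mem_univ _, hj'.symm⟩
            · obtain ⟨j', hj'⟩ := h2 j
              exact mem_image.2 ⟨j', mem_univ _, hj'.symm⟩
          · intro z hz z' hz' hzz
            rw [mem_coe, mem_filter] at hz hz'
            have hΦΦ := hz.2.trans hz'.2.symm
            rw [hΦ] at hΦΦ
            simp only [Prod.mk.injEq] at hΦΦ hzz
            obtain ⟨⟨⟨e1, e2⟩, e3, e4⟩, e5⟩ := hΦΦ
            refine Prod.ext (Prod.ext e3 (Prod.ext e1 ?_)) (Prod.ext e4 (Prod.ext e2 hzz.2))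
            funext j
            refine Fin.addCases (fun j => ?_) (fun j => ?_) j
            · exact congrFun e5 j
            · exact congrFun hzz.1 j
      _ ≤ s ^ s * (h0 + s) ^ (h0 + s) := by
          rw [card_product, card_tup, card_tup]
          refine Nat.mul_le_mul (Nat.pow_le_pow_left ?_ _) (Nat.pow_le_pow_left ?_ _)
          · exact card_image_le.trans (by simp)
          · exact card_image_le.trans (by simp)
  have himg : #(S.image Φ) ≤ #Pr * (#Λ * #Λ) * (2 ^ (β + κ)) ^ h0 := by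
    calc #(S.image Φ) ≤ #((Pr ×ˢ (Λ ×ˢ Λ)) ×ˢ tup P h0) := by
          refine card_le_card ?_
          intro x hx
          rw [mem_image] at hx
          obtain ⟨z, hz, rfl⟩ := hx
          obtain ⟨⟨a1, a2, a3⟩, ⟨b1, b2, b3⟩, c1, c2, c3⟩ := hmS z hz
          rw [hΦ, mem_product, mem_product, mem_product]
          exact ⟨⟨c3, a1, b1⟩, mem_tup.2 fun j => a3 _⟩
      _ = #Pr * (#Λ * #Λ) * #P ^ h0 := by
          rw [card_product, card_product, card_product, card_tup]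
      _ ≤ _ := Nat.mul_le_mul_left _ (Nat.pow_le_pow_left (PP_card_le β κ) _)
  have hself : ∀ m : ℕ, m ^ m ≤ 2 ^ (m * m) := by
    intro m
    rw [pow_mul]
    exact Nat.pow_le_pow_left Nat.lt_two_pow_self.le _
  calc #S ≤ s ^ s * (h0 + s) ^ (h0 + s) * #(S.image Φ) := hcard
    _ ≤ 2 ^ (s * s) * 2 ^ ((h0 + s) * (h0 + s)) * (#Pr * (#Λ * #Λ) * (2 ^ (β + κ)) ^ h0) :=
        Nat.mul_le_mul (Nat.mul_le_mul (hself _) (hself _)) himg
    _ = #Pr * #Λ * #Λ * 2 ^ (s * s + (h0 + s) * (h0 + s) + (β + κ) * h0) := by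
        rw [← pow_mul, pow_add, pow_add]
        ring
    _ ≤ _ := by
        apply Nat.mul_le_mul_left
        apply Nat.pow_le_pow_right (by norm_num)
        have h1 : s * s + (h0 + s) * (h0 + s) ≤ (s * s + (h0 + s) * (h0 + s)) * κ :=
          Nat.le_mul_of_pos_right _ hκ
        nlinarith

end Pool.Agent.Helper19.P3
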