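import Mathlib
import Pool.Agent.Helper58.LT.Ratio

/-!
# PS3, the key count: an energy of `(t, u, p)`, `t` in a thin set `Λ`, `u` smooth, `p` primes
-/

namespace Pool.Agent.Helper13.P3

open Finset Pool.Agent.Helper58.LT

/-- spacing for products of squarefree numbers, four groups -/
theorem sp4 {n1 n2 n3 n4 a b c d : ℕ} (p : Fin n1 → ℕ) (q : Fin n2 → ℕ) (p' : Fin n3 → ℕ)
    (q' : Fin n4 → ℕ) (ha : Squarefree a) (hb : Squarefree b) (hc : Squarefree c)
    (hd : Squarefree d) (hp : ∀ i, Squarefree (p i)) (hq : ∀ i, Squarefree (q i))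
    (hp' : ∀ i, Squarefree (p' i)) (hq' : ∀ i, Squarefree (q' i)) {Z : ℝ}
    (hZ : ((a * b * ((∏ i, p i) * ∏ i, q i) : ℕ) : ℝ) *
      ((c * d * ((∏ i, p' i) * ∏ i, q' i) : ℕ) : ℝ) ≤ Z)
    (h : |(lam a + lam b + (∑ i, lam (p i) + ∑ i, lam (q i))) -
      (lam c + lam d + (∑ i, lam (p' i) + ∑ i, lam (q' i)))| < 1 / Z) :
    a * b * ((∏ i, p i) * ∏ i, q i) = c * d * ((∏ i, p' i) * ∏ i, q' i) := by
  have e1 : ∏ i, (Fin.append ![a, b] (Fin.append p q)) i = a * b * ((∏ i, p i) * ∏ i, q i) := by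
    simp [Fin.prod_univ_add]
  have e2 : ∏ i, (Fin.append ![c, d] (Fin.append p' q')) i
      = c * d * ((∏ i, p' i) * ∏ i, q' i) := by
    simp [Fin.prod_univ_add]
  have s1 : ∑ i, lam ((Fin.append ![a, b] (Fin.append p q)) i)
      = lam a + lam b + (∑ i, lam (p i) + ∑ i, lam (q i)) := by
    simp [Fin.sum_univ_add]
  have s2 : ∑ i, lam ((Fin.append ![c, d] (Fin.append p' q')) i)
      = lam c + lam d + (∑ i, lam (p' i) + ∑ i, lam (q' i)) := by
    simp [Fin.sum_univ_add]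
  rw [← e1, ← e2]
  apply spacing_tuple (Z := Z)
  · intro i
    refine Fin.addCases (fun i => ?_) (fun i => ?_) i
    · rw [Fin.append_left]
      fin_cases i
      · exact ha
      · exact hb
    · rw [Fin.append_right]
      refine Fin.addCases (fun i => ?_) (fun i => ?_) i
      · rw [Fin.append_left]; exact hp i
      · rw [Fin.append_right]; exact hq i
  · intro i
    refine Fin.addCases (fun i => ?_) (fun i => ?_) i
    · rw [Fin.append_left]
      fin_cases i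
      · exact hc
      · exact hd
    · rw [Fin.append_right]
      refine Fin.addCases (fun i => ?_) (fun i => ?_) i
      · rw [Fin.append_left]; exact hp' i
      · rw [Fin.append_right]; exact hq' i
  · rw [e1, e2]; exact hZ
  · rw [s1, s2]; exact h

/-- a divisor of medium size between `g` and `u` -/
theorem exists_mid {u g : ℕ} {G z : ℝ} (hu : Squarefree u)
    (hz : ∀ q ∈ u.primeFactors, (q : ℝ) ≤ z) (hg : g ∣ u) (hgG : (g : ℝ) < G)
    (hG : G ≤ (u : ℝ)) : ∃ d, g ∣ d ∧ d ∣ u ∧ G ≤ (d : ℝ) ∧ (d : ℝ) ≤ G * z := by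
  classical
  have hu0 : u ≠ 0 := hu.ne_zero
  have hg0 : 0 < g := Nat.pos_of_dvd_of_pos hg (Nat.pos_of_ne_zero hu0)
  obtain ⟨d, hd, hmin⟩ := Finset.exists_min_image
    ((u.divisors).filter (fun d => g ∣ d ∧ G ≤ (d : ℝ))) (fun d => d)
    ⟨u, by rw [mem_filter, Nat.mem_divisors]; exact ⟨⟨dvd_rfl, hu0⟩, hg, hG⟩⟩
  rw [mem_filter, Nat.mem_divisors] at hd
  obtain ⟨⟨hdu, -⟩, hgd, hGd⟩ := hd
  refine ⟨d, hgd, hdu, hGd, ?_⟩
  obtain ⟨e, he⟩ := hgd
  have hd0 : 0 < d := Nat.pos_of_dvd_of_pos hdu (Nat.pos_of_ne_zero hu0)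
  have he1 : e ≠ 1 := by
    intro h
    rw [h, mul_one] at he
    rw [he] at hGd
    linarith
  obtain ⟨q, hq, hqe⟩ := Nat.exists_prime_and_dvd he1
  obtain ⟨f, hf⟩ := hqe
  have hqu : q ∣ u := by
    refine dvd_trans ?_ hdu
    rw [he, hf]
    exact ⟨g * f, by ring⟩
  have hqz := hz q (Nat.mem_primeFactors.2 ⟨hq, hqu, hu0⟩)
  have hdf : d = g * f * q := by rw [he, hf]; ring
  have hf0 : 0 < g * f := by
    rcases Nat.eq_zero_or_pos (g * f) with h0 | h0
    · rw [h0, zero_mul] at hdf; omega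
    · exact h0
  have hlt : (( g * f : ℕ) : ℝ) < G := by
    by_contra hcon
    push Not at hcon
    have h1 := hmin (g * f) (by
      rw [mem_filter, Nat.mem_divisors]
      refine ⟨⟨dvd_trans ⟨q, hdf⟩ hdu, hu0⟩, dvd_mul_right _ _, hcon⟩)
    have h2 : d ≤ g * f := h1
    have h3 : g * f * 2 ≤ g * f * q := Nat.mul_le_mul_left _ hq.two_le
    omega
  rw [hdf, Nat.cast_mul]
  have hGpos : 0 < G := lt_of_le_of_lt (Nat.cast_nonneg _) hlt
  exact mul_le_mul hlt.le hqz (Nat.cast_nonneg _) hGpos.le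

/-- spacing, both sides with one tuple, in terms of an error bound -/
theorem sp2 {n1 n2 a b c d : ℕ} (p : Fin n1 → ℕ) (q : Fin n2 → ℕ) (ha : Squarefree a)
    (hb : Squarefree b) (hc : Squarefree c) (hd : Squarefree d) (hp : ∀ i, Squarefree (p i))
    (hq : ∀ i, Squarefree (q i)) {Y N E : ℝ}
    (h1 : ((a * (b * ∏ i, p i) : ℕ) : ℝ) ≤ Y) (h2 : ((c * (d * ∏ i, q i) : ℕ) : ℝ) ≤ Y)
    (hE : |N * (lam a + (lam b + ∑ i, lam (p i))) - N * (lam c + (lam d + ∑ i, lam (q i)))| ≤ E)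
    (hN : E * Y ^ 2 < N) : a * (b * ∏ i, p i) = c * (d * ∏ i, q i) := by
  have hE0 : 0 ≤ E := le_trans (abs_nonneg _) hE
  have hN0 : 0 < N := lt_of_le_of_lt (by positivity) hN
  have hpp : 0 < ∏ i, p i := prod_pos fun i _ => Nat.pos_of_ne_zero (hp i).ne_zero
  have hqq : 0 < ∏ i, q i := prod_pos fun i _ => Nat.pos_of_ne_zero (hq i).ne_zero
  have ha0 := Nat.pos_of_ne_zero ha.ne_zero
  have hb0 := Nat.pos_of_ne_zero hb.ne_zero
  have hY : 0 < Y := by
    refine lt_of_lt_of_le ?_ h1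
    exact_mod_cast Nat.mul_pos ha0 (Nat.mul_pos hb0 hpp)
  have key := sp4 (n2 := 0) (n4 := 0) p (fun i => i.elim0) q (fun i => i.elim0) ha hb hc hd hp
    (fun i => i.elim0) hq (fun i => i.elim0) (Z := Y ^ 2) ?_ ?_
  · simp only [univ_eq_empty, prod_empty, mul_one] at key
    rw [← mul_assoc, ← mul_assoc]
    exact key
  · simp only [univ_eq_empty, prod_empty, mul_one]
    rw [mul_assoc a b, mul_assoc c d, sq]
    exact mul_le_mul h1 h2 (Nat.cast_nonneg _) hY.le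
  · simp only [univ_eq_empty, sum_empty, add_zero]
    rw [lt_div_iff₀ (by positivity)]
    rw [← mul_sub, abs_mul, abs_of_pos hN0, ← add_assoc, ← add_assoc] at hE
    generalize |lam a + lam b + ∑ i, lam (p i) - (lam c + lam d + ∑ i, lam (q i))| = w at hE ⊢
    by_contra hcon
    push Not at hcon
    have h3 : N * 1 ≤ N * (w * Y ^ 2) := mul_le_mul_of_nonneg_left hcon hN0.le
    have h4 : N * w * Y ^ 2 ≤ E * Y ^ 2 := mul_le_mul_of_nonneg_right hE (by positivity)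
    linarith

theorem prod_upd {M : ℕ} (p : Fin M → ℕ) (i : Fin M) :
    (∏ j, Function.update p i 1 j) * p i = ∏ j, p j := by
  rw [← Finset.mul_prod_erase univ p (mem_univ i),
    ← Finset.mul_prod_erase univ (Function.update p i 1) (mem_univ i), Function.update_self,
    one_mul, mul_comm]
  congr 1
  refine prod_congr rfl fun j hj => ?_
  rw [Function.update_of_ne (ne_of_mem_erase hj)]

theorem sum_upd {M : ℕ} (p : Fin M → ℕ) (i : Fin M) :
    (∑ j, lam (Function.update p i 1 j)) + lam (p i) = ∑ j, lam (p j) := by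
  rw [← Finset.add_sum_erase univ (fun j => lam (p j)) (mem_univ i),
    ← Finset.add_sum_erase univ (fun j => lam (Function.update p i 1 j)) (mem_univ i),
    Function.update_self, lam_one, zero_add, add_comm]
  congr 1
  refine sum_congr rfl fun j hj => ?_
  rw [Function.update_of_ne (ne_of_mem_erase hj)]

/-- the number of triples with a given product -/
theorem card_prod_eq {M w n : ℕ} (S : Finset (ℕ × ℕ × (Fin M → ℕ)))
    (h : ∀ x ∈ S, Squarefree x.1 ∧ Squarefree x.2.1 ∧ (∀ i, (x.2.2 i).Prime) ∧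
      x.1 * (x.2.1 * ∏ i, x.2.2 i) = n) (hw : #n.primeFactors ≤ w) :
    #S ≤ 4 ^ w * w ^ M := by
  classical
  have hn : ∀ x ∈ S, n ≠ 0 := by
    intro x hx
    obtain ⟨h1, h2, h3, h4⟩ := h x hx
    rw [← h4]
    exact mul_ne_zero h1.ne_zero (mul_ne_zero h2.ne_zero (prod_ne_zero_iff.2 fun i _ => (h3 i).ne_zero))
  calc #S ≤ #(n.primeFactors.powerset ×ˢ (n.primeFactors.powerset ×ˢ tup n.primeFactors M)) := by
        refine card_le_card_of_injOn (fun x => (x.1.primeFactors, x.2.1.primeFactors, x.2.2)) ?_ ?_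
        · intro x hx
          rw [mem_coe] at hx
          obtain ⟨h1, h2, h3, h4⟩ := h x hx
          have hn0 := hn x hx
          rw [mem_coe, mem_product, mem_product]
          refine ⟨mem_powerset.2 ?_, mem_powerset.2 ?_, mem_tup.2 ?_⟩
          · exact Nat.primeFactors_mono (h4 ▸ dvd_mul_right _ _) hn0
          · exact Nat.primeFactors_mono
              (h4 ▸ dvd_mul_of_dvd_right (dvd_mul_right _ _) _) hn0
          · intro i
            refine Nat.mem_primeFactors.2 ⟨h3 i, ?_, hn0⟩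
            exact h4 ▸ dvd_mul_of_dvd_right (dvd_mul_of_dvd_right
              (dvd_prod_of_mem _ (mem_univ i)) _) _
        · intro x hx y hy hxy
          rw [mem_coe] at hx hy
          obtain ⟨h1, h2, -, -⟩ := h x hx
          obtain ⟨h1', h2', -, -⟩ := h y hy
          simp only [Prod.mk.injEq] at hxy
          obtain ⟨e1, e2, e3⟩ := hxy
          refine Prod.ext ?_ (Prod.ext ?_ e3)
          · rw [← Nat.prod_primeFactors_of_squarefree h1, e1,
              Nat.prod_primeFactors_of_squarefree h1']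
          · rw [← Nat.prod_primeFactors_of_squarefree h2, e2,
              Nat.prod_primeFactors_of_squarefree h2']
    _ = 4 ^ (#n.primeFactors) * (#n.primeFactors) ^ M := by
        rw [card_product, card_product, card_powerset, card_tup, ← mul_assoc, ← mul_pow]
        norm_num
    _ ≤ _ := Nat.mul_le_mul (Nat.pow_le_pow_right (by norm_num) hw) (Nat.pow_le_pow_left hw _)

/-- the determination of `E`, `E'` -/
theorem det_pair {h m M : ℕ} {N e E0 F0 z : ℝ} {t t' u1 u2 v1 v2 d g : ℕ}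
    {a : Fin h → ℕ} {b1 b2 : Fin m → ℕ} {c1 c2 : Fin M → ℕ}
    (hu1 : Squarefree u1) (hu2 : Squarefree u2) (hv1 : Squarefree v1) (hv2 : Squarefree v2)
    (hb1 : ∀ i, (b1 i).Prime) (hb2 : ∀ i, (b2 i).Prime) (hc1 : ∀ i, (c1 i).Prime)
    (hc2 : ∀ i, (c2 i).Prime)
    (hbz1 : ∀ i, z < b1 i) (hbz2 : ∀ i, z < b2 i) (hcz1 : ∀ i, z < c1 i) (hcz2 : ∀ i, z < c2 i)
    (huz1 : ∀ q ∈ u1.primeFactors, (q : ℝ) ≤ z) (huz2 : ∀ q ∈ u2.primeFactors, (q : ℝ) ≤ z)
    (hvz1 : ∀ q ∈ v1.primeFactors, (q : ℝ) ≤ z) (hvz2 : ∀ q ∈ v2.primeFactors, (q : ℝ) ≤ z)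
    (hdis1 : ∀ i j, b1 i ≠ c1 j) (hdis2 : ∀ i j, b2 i ≠ c2 j)
    (hd1 : d ∣ u1) (hd2 : d ∣ u2) (hgd : g ∣ d) (hg1 : Nat.gcd u1 v1 = g) (hg2 : Nat.gcd u2 v2 = g)
    (hE1 : |N * (lam t + (lam u1 + (∑ i, lam (a i) + ∑ i, lam (b1 i)))) -
      N * (lam t' + (lam v1 + ∑ i, lam (c1 i)))| ≤ e)
    (hE2 : |N * (lam t + (lam u2 + (∑ i, lam (a i) + ∑ i, lam (b2 i)))) -
      N * (lam t' + (lam v2 + ∑ i, lam (c2 i)))| ≤ e)
    (hs1 : (((u1 / d) * ∏ i, b1 i : ℕ) : ℝ) ≤ E0) (hs2 : (((u2 / d) * ∏ i, b2 i : ℕ) : ℝ) ≤ E0)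
    (hs3 : (((v1 / g) * ∏ i, c1 i : ℕ) : ℝ) ≤ F0) (hs4 : (((v2 / g) * ∏ i, c2 i : ℕ) : ℝ) ≤ F0)
    (hN : 2 * e * (E0 * F0) ^ 2 < N) :
    u1 * ∏ i, b1 i = u2 * ∏ i, b2 i ∧ v1 * ∏ i, c1 i = v2 * ∏ i, c2 i := by
  have he0 : 0 ≤ e := le_trans (abs_nonneg _) hE1
  have hN0 : 0 < N := lt_of_le_of_lt (by positivity) hN
  have hgv1 : g ∣ v1 := hg1 ▸ Nat.gcd_dvd_right _ _
  have hgv2 : g ∣ v2 := hg2 ▸ Nat.gcd_dvd_right _ _
  have hg0 : 0 < g := by
    rw [← hg1]; exact Nat.gcd_pos_of_pos_left _ (Nat.pos_of_ne_zero hu1.ne_zero)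
  have hd0 : 0 < d := Nat.pos_of_dvd_of_pos hd1 (Nat.pos_of_ne_zero hu1.ne_zero)
  obtain ⟨x1, hx1⟩ := hd1
  obtain ⟨x2, hx2⟩ := hd2
  obtain ⟨y1, hy1⟩ := hgv1
  obtain ⟨y2, hy2⟩ := hgv2
  have ex1 : u1 / d = x1 := by rw [hx1]; exact Nat.mul_div_cancel_left _ hd0
  have ex2 : u2 / d = x2 := by rw [hx2]; exact Nat.mul_div_cancel_left _ hd0
  have ey1 : v1 / g = y1 := by rw [hy1]; exact Nat.mul_div_cancel_left _ hg0
  have ey2 : v2 / g = y2 := by rw [hy2]; exact Nat.mul_div_cancel_left _ hg0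
  rw [ex1] at hs1
  rw [ex2] at hs2
  rw [ey1] at hs3
  rw [ey2] at hs4
  have sx1 : Squarefree x1 := hu1.squarefree_of_dvd ⟨d, by rw [hx1]; ring⟩
  have sx2 : Squarefree x2 := hu2.squarefree_of_dvd ⟨d, by rw [hx2]; ring⟩
  have sy1 : Squarefree y1 := hv1.squarefree_of_dvd ⟨g, by rw [hy1]; ring⟩
  have sy2 : Squarefree y2 := hv2.squarefree_of_dvd ⟨g, by rw [hy2]; ring⟩
  have lu1 : lam u1 = lam d + lam x1 := by
    rw [hx1] at hu1 ⊢; exact lam_mul_of_squarefree hu1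
  have lu2 : lam u2 = lam d + lam x2 := by
    rw [hx2] at hu2 ⊢; exact lam_mul_of_squarefree hu2
  have lv1 : lam v1 = lam g + lam y1 := by
    rw [hy1] at hv1 ⊢; exact lam_mul_of_squarefree hv1
  have lv2 : lam v2 = lam g + lam y2 := by
    rw [hy2] at hv2 ⊢; exact lam_mul_of_squarefree hv2
  -- coprimality
  have hcop : ∀ (u v x y : ℕ) (b : Fin m → ℕ) (c : Fin M → ℕ), Squarefree u → Squarefree v →
      (∀ i, (b i).Prime) → (∀ i, (c i).Prime) → (∀ i, z < b i) → (∀ i, z < c i) →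
      (∀ q ∈ u.primeFactors, (q : ℝ) ≤ z) → (∀ q ∈ v.primeFactors, (q : ℝ) ≤ z) →
      (∀ i j, b i ≠ c j) → Nat.gcd u v = g → u = d * x → v = g * y →
      Nat.Coprime (x * ∏ i, b i) (y * ∏ i, c i) := by
    intro u v x y b c hu hv hb hc hbz hcz huz hvz hdis hg hx hy
    have hxu : x ∣ u := ⟨d, by rw [hx]; ring⟩
    have hyv : y ∣ v := ⟨g, by rw [hy]; ring⟩
    have h1 : Nat.Coprime x y := by
      obtain ⟨k, hk⟩ := hgd
      have h2 : Nat.Coprime (u / g) (v / g) := by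
        rw [← hg]; exact Nat.coprime_div_gcd_div_gcd (hg.symm ▸ hg0)
      have h3 : u / g = k * x := by
        rw [hx, hk, mul_assoc]; exact Nat.mul_div_cancel_left _ hg0
      have h4 : v / g = y := by
        rw [hy]; exact Nat.mul_div_cancel_left _ hg0
      rw [h3, h4] at h2
      exact Nat.Coprime.coprime_dvd_left (dvd_mul_left _ _) h2
    have h5 : ∀ i, Nat.Coprime (b i) y := by
      intro i
      rw [(hb i).coprime_iff_not_dvd]
      intro hd
      have := hvz (b i) (Nat.mem_primeFactors.2 ⟨hb i, hd.trans hyv, hv.ne_zero⟩)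
      linarith [hbz i]
    have h6 : ∀ i, Nat.Coprime x (c i) := by
      intro i
      rw [Nat.coprime_comm, (hc i).coprime_iff_not_dvd]
      intro hd
      have := huz (c i) (Nat.mem_primeFactors.2 ⟨hc i, hd.trans hxu, hu.ne_zero⟩)
      linarith [hcz i]
    have h7 : ∀ i j, Nat.Coprime (b i) (c j) := fun i j =>
      (Nat.coprime_primes (hb i) (hc j)).2 (hdis i j)
    refine Nat.Coprime.mul_left (Nat.Coprime.mul_right h1 ?_) (Nat.Coprime.mul_right ?_ ?_)
    · exact Nat.Coprime.prod_right fun i _ => h6 i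
    · exact Nat.Coprime.prod_left fun i _ => h5 i
    · exact Nat.Coprime.prod_left fun i _ => Nat.Coprime.prod_right fun j _ => h7 i j
  have cp1 := hcop u1 v1 x1 y1 b1 c1 hu1 hv1 hb1 hc1 hbz1 hcz1 huz1 hvz1 hdis1 hg1 hx1 hy1
  have cp2 := hcop u2 v2 x2 y2 b2 c2 hu2 hv2 hb2 hc2 hbz2 hcz2 huz2 hvz2 hdis2 hg2 hx2 hy2
  have hb10 : 0 < ∏ i, b1 i := prod_pos fun i _ => (hb1 i).pos
  have hb20 : 0 < ∏ i, b2 i := prod_pos fun i _ => (hb2 i).pos
  have hc10 : 0 < ∏ i, c1 i := prod_pos fun i _ => (hc1 i).pos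
  have hc20 : 0 < ∏ i, c2 i := prod_pos fun i _ => (hc2 i).pos
  have hE0 : 0 < E0 := by
    refine lt_of_lt_of_le ?_ hs1
    exact_mod_cast Nat.mul_pos (Nat.pos_of_ne_zero sx1.ne_zero) hb10
  have hF0 : 0 < F0 := by
    refine lt_of_lt_of_le ?_ hs3
    exact_mod_cast Nat.mul_pos (Nat.pos_of_ne_zero sy1.ne_zero) hc10
  have key : x1 * y2 * ((∏ i, b1 i) * ∏ i, c2 i) = x2 * y1 * ((∏ i, b2 i) * ∏ i, c1 i) := by
    apply sp4 b1 c2 b2 c1 sx1 sy2 sx2 sy1 (fun i => (hb1 i).squarefree) (fun i => (hc2 i).squarefree)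
      (fun i => (hb2 i).squarefree) (fun i => (hc1 i).squarefree) (Z := (E0 * F0) ^ 2)
    · have r1 : ((x1 * y2 * ((∏ i, b1 i) * ∏ i, c2 i) : ℕ) : ℝ) ≤ E0 * F0 := by
        calc ((x1 * y2 * ((∏ i, b1 i) * ∏ i, c2 i) : ℕ) : ℝ)
            = ((x1 * ∏ i, b1 i : ℕ) : ℝ) * ((y2 * ∏ i, c2 i : ℕ) : ℝ) := by
              rw [← Nat.cast_mul]; congr 1; ring
          _ ≤ E0 * F0 := mul_le_mul hs1 hs4 (Nat.cast_nonneg _) hE0.le
      have r2 : ((x2 * y1 * ((∏ i, b2 i) * ∏ i, c1 i) : ℕ) : ℝ) ≤ E0 * F0 := by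
        calc ((x2 * y1 * ((∏ i, b2 i) * ∏ i, c1 i) : ℕ) : ℝ)
            = ((x2 * ∏ i, b2 i : ℕ) : ℝ) * ((y1 * ∏ i, c1 i : ℕ) : ℝ) := by
              rw [← Nat.cast_mul]; congr 1; ring
          _ ≤ E0 * F0 := mul_le_mul hs2 hs3 (Nat.cast_nonneg _) hE0.le
      rw [sq]
      exact mul_le_mul r1 r2 (Nat.cast_nonneg _) (by positivity)
    · rw [lt_div_iff₀ (by positivity)]
      rw [lu1, lv1] at hE1
      rw [lu2, lv2] at hE2
      have h3 : |N * ((lam x1 + lam y2 + (∑ i, lam (b1 i) + ∑ i, lam (c2 i))) -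
          (lam x2 + lam y1 + (∑ i, lam (b2 i) + ∑ i, lam (c1 i))))| ≤ 2 * e := by
        rw [abs_le] at hE1 hE2 ⊢
        constructor <;> nlinarith [hE1.1, hE1.2, hE2.1, hE2.2]
      rw [abs_mul, abs_of_pos hN0] at h3
      generalize |lam x1 + lam y2 + (∑ i, lam (b1 i) + ∑ i, lam (c2 i)) -
          (lam x2 + lam y1 + (∑ i, lam (b2 i) + ∑ i, lam (c1 i)))| = w at h3 ⊢
      by_contra hcon
      push Not at hcon
      have h4 : N * 1 ≤ N * (w * (E0 * F0) ^ 2) := mul_le_mul_of_nonneg_left hcon hN0.le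
      have h5 : N * w * (E0 * F0) ^ 2 ≤ 2 * e * (E0 * F0) ^ 2 :=
        mul_le_mul_of_nonneg_right h3 (by positivity)
      linarith
  have key' : (x1 * ∏ i, b1 i) * (y2 * ∏ i, c2 i) = (x2 * ∏ i, b2 i) * (y1 * ∏ i, c1 i) := by
    calc (x1 * ∏ i, b1 i) * (y2 * ∏ i, c2 i) = x1 * y2 * ((∏ i, b1 i) * ∏ i, c2 i) := by ring
      _ = _ := key
      _ = _ := by ring
  have hEE : x1 * ∏ i, b1 i = x2 * ∏ i, b2 i := by
    apply Nat.dvd_antisymm
    · exact cp1.dvd_of_dvd_mul_right (key' ▸ dvd_mul_right _ _)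
    · exact cp2.dvd_of_dvd_mul_right (key' ▸ dvd_mul_right _ _)
  have hFF : y1 * ∏ i, c1 i = y2 * ∏ i, c2 i := by
    rw [hEE] at key'
    exact (Nat.eq_of_mul_eq_mul_left (Nat.mul_pos (Nat.pos_of_ne_zero sx2.ne_zero) hb20) key').symm
  constructor
  · rw [hx1, hx2, mul_assoc, mul_assoc, hEE]
  · rw [hy1, hy2, mul_assoc, mul_assoc, hFF]

theorem card_div {d : ℕ} (hd : Squarefree d) : #d.divisors ≤ 2 ^ #d.primeFactors := by
  classical
  rw [← card_powerset]
  refine card_le_card_of_injOn (fun x => x.primeFactors) ?_ ?_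
  · intro x hx
    rw [mem_coe, Nat.mem_divisors] at hx
    rw [mem_coe, mem_powerset]
    exact Nat.primeFactors_mono hx.1 hx.2
  · intro x hx y hy hxy
    rw [mem_coe, Nat.mem_divisors] at hx hy
    have h1 := hd.squarefree_of_dvd hx.1
    have h2 := hd.squarefree_of_dvd hy.1
    have h3 : x.primeFactors = y.primeFactors := hxy
    rw [← Nat.prod_primeFactors_of_squarefree h1, h3, Nat.prod_primeFactors_of_squarefree h2]

theorem card_pf_prod {M : ℕ} (p : Fin M → ℕ) (hp : ∀ i, (p i).Prime) :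
    #(∏ i, p i).primeFactors ≤ M := by
  classical
  calc #(∏ i, p i).primeFactors ≤ #(univ.image p) := by
        refine card_le_card ?_
        intro q hq
        rw [Nat.mem_primeFactors] at hq
        obtain ⟨i, -, hi⟩ := (Prime.dvd_finsetProd_iff hq.1.prime _).1 hq.2.1
        rw [mem_image]
        exact ⟨i, mem_univ i, ((Nat.prime_dvd_prime_iff_eq hq.1 (hp i)).1 hi).symm⟩
    _ ≤ #(univ : Finset (Fin M)) := card_image_le
    _ = M := by simp

theorem card_pf3 {M W : ℕ} {t u : ℕ} (p : Fin M → ℕ) (hp : ∀ i, (p i).Prime)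
    (ht : #t.primeFactors ≤ W) (hu : #u.primeFactors ≤ W) :
    #(t * (u * ∏ i, p i)).primeFactors ≤ 2 * W + M := by
  classical
  have h1 : ∀ a b : ℕ, #(a * b).primeFactors ≤ #a.primeFactors + #b.primeFactors := by
    intro a b
    rcases Nat.eq_zero_or_pos a with h0 | h0
    · subst h0; simp
    · rcases Nat.eq_zero_or_pos b with h0' | h0'
      · subst h0'; simp
      · rw [Nat.primeFactors_mul h0.ne' h0'.ne']
        exact card_union_le _ _
  have h2 := h1 t (u * ∏ i, p i)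
  have h3 := h1 u (∏ i, p i)
  have h4 := card_pf_prod p hp
  omega

/-- the key count -/
theorem key_count {h m W : ℕ} {N e T0 U0 P1 G z : ℝ} {Λ U K : Finset ℕ} {ψ : ℕ → ℤ}
    (hΛ : ∀ t ∈ Λ, Squarefree t ∧ (t : ℝ) ≤ T0 ∧ #t.primeFactors ≤ W ∧
      |(ψ t : ℝ) - N * lam t| ≤ e)
    (hU : ∀ u ∈ U, Squarefree u ∧ (u : ℝ) ≤ U0 ∧ #u.primeFactors ≤ W ∧
      |(ψ u : ℝ) - N * lam u| ≤ e ∧ (∀ q ∈ u.primeFactors, (q : ℝ) ≤ z) ∧ G ≤ (u : ℝ))
    (hK : ∀ p ∈ K, p.Prime ∧ (p : ℝ) ≤ P1 ∧ |(ψ p : ℝ) - N * lam p| ≤ e ∧ z < (p : ℝ) ∧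
      G ≤ (p : ℝ))
    (hG : 1 ≤ G) (hz : 1 ≤ z)
    (hN1 : 2 * (((h + m + 2 : ℕ) : ℝ) * e) * (T0 * (U0 * P1 ^ (h + m)) / G) ^ 2 < N)
    (hN2 : 2 * (2 * (((h + m + 2 : ℕ) : ℝ) * e)) *
      ((U0 * P1 ^ m / G) * (U0 * P1 ^ (h + m))) ^ 2 < N) :
    (en (Λ ×ˢ (U ×ˢ tup K (h + m))) (fun x => ψ x.1 + (ψ x.2.1 + sm' ψ x.2.2)) : ℝ) ≤
      #Λ * (#U * (#K : ℝ) ^ (h + m)) * ((4 ^ (2 * W + (h + m)) * (2 * W + (h + m)) ^ (h + m) : ℕ) : ℝ)
      + (#Λ : ℝ) ^ 2 * ((#K : ℝ) ^ h * ((G * z) * 2 ^ W)) *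
        ((4 ^ (2 * W + (h + m)) * (2 * W + (h + m)) ^ (h + m) : ℕ) : ℝ) ^ 2 := by
  classical
  set M := h + m with hM
  set c : ℕ := 4 ^ (2 * W + M) * (2 * W + M) ^ M with hc
  set T := Λ ×ˢ (U ×ˢ tup K M) with hT
  set F : ℕ × ℕ × (Fin M → ℕ) → ℤ := fun x => ψ x.1 + (ψ x.2.1 + sm' ψ x.2.2) with hF
  set Lx : ℕ × ℕ × (Fin M → ℕ) → ℝ := fun x => lam x.1 + (lam x.2.1 + ∑ i, lam (x.2.2 i)) with hLx
  set pr : ℕ × ℕ × (Fin M → ℕ) → ℕ := fun x => x.1 * (x.2.1 * ∏ i, x.2.2 i) with hpr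
  have hmT : ∀ x ∈ T, x.1 ∈ Λ ∧ x.2.1 ∈ U ∧ ∀ i, x.2.2 i ∈ K := by
    intro x hx
    rw [hT, mem_product, mem_product] at hx
    exact ⟨hx.1, hx.2.1, mem_tup.1 hx.2.2⟩
  have herr : ∀ x ∈ T, |(F x : ℝ) - N * Lx x| ≤ ((M + 2 : ℕ) : ℝ) * e := by
    intro x hx
    obtain ⟨h1, h2, h3⟩ := hmT x hx
    have e1 := (hΛ _ h1).2.2.2
    have e2 := (hU _ h2).2.2.2.1
    have e3 : |((sm' ψ x.2.2 : ℤ) : ℝ) - N * ∑ i, lam (x.2.2 i)| ≤ M * e := by
      have : ((sm' ψ x.2.2 : ℤ) : ℝ) - N * ∑ i, lam (x.2.2 i)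
          = ∑ i, ((ψ (x.2.2 i) : ℝ) - N * lam (x.2.2 i)) := by
        unfold sm'
        rw [sum_sub_distrib, mul_sum]
        push_cast
        rfl
      rw [this]
      calc |∑ i, ((ψ (x.2.2 i) : ℝ) - N * lam (x.2.2 i))|
          ≤ ∑ i, |((ψ (x.2.2 i) : ℝ) - N * lam (x.2.2 i))| := abs_sum_le_sum_abs _ _
        _ ≤ ∑ _i : Fin M, e := sum_le_sum fun i _ => (hK _ (h3 i)).2.2.1
        _ = M * e := by simp
    have e4 : (F x : ℝ) - N * Lx x = ((ψ x.1 : ℝ) - N * lam x.1) + (((ψ x.2.1 : ℝ) - N * lam x.2.1)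
        + (((sm' ψ x.2.2 : ℤ) : ℝ) - N * ∑ i, lam (x.2.2 i))) := by
      rw [hF, hLx]
      push_cast
      ring
    rw [e4]
    calc _ ≤ |(ψ x.1 : ℝ) - N * lam x.1| + |((ψ x.2.1 : ℝ) - N * lam x.2.1)
        + (((sm' ψ x.2.2 : ℤ) : ℝ) - N * ∑ i, lam (x.2.2 i))| := abs_add_le _ _
      _ ≤ |(ψ x.1 : ℝ) - N * lam x.1| + (|(ψ x.2.1 : ℝ) - N * lam x.2.1|
        + |((sm' ψ x.2.2 : ℤ) : ℝ) - N * ∑ i, lam (x.2.2 i)|) := by
          gcongr; exact abs_add_le _ _
      _ ≤ e + (e + M * e) := by gcongr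
      _ = _ := by push_cast; ring
  have herr2 : ∀ x ∈ T, ∀ y ∈ T, F x = F y →
      |N * Lx x - N * Lx y| ≤ 2 * (((M + 2 : ℕ) : ℝ) * e) := by
    intro x hx y hy hxy
    have h1 := herr x hx
    have h2 := herr y hy
    rw [hxy] at h1
    rw [abs_le] at h1 h2 ⊢
    constructor <;> linarith [h1.1, h1.2, h2.1, h2.2]
  have hsize : ∀ x ∈ T, ((x.2.1 * ∏ i, x.2.2 i : ℕ) : ℝ) ≤ U0 * P1 ^ M := by
    intro x hx
    obtain ⟨h1, h2, h3⟩ := hmT x hx
    rw [Nat.cast_mul, Nat.cast_prod]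
    have h4 : ∏ i, ((x.2.2 i : ℕ) : ℝ) ≤ P1 ^ M := by
      calc ∏ i, ((x.2.2 i : ℕ) : ℝ) ≤ ∏ _i : Fin M, P1 :=
            prod_le_prod (fun i _ => Nat.cast_nonneg _) fun i _ => (hK _ (h3 i)).2.1
        _ = P1 ^ M := by simp
    exact mul_le_mul (hU _ h2).2.1 h4 (prod_nonneg fun i _ => Nat.cast_nonneg _)
      (le_trans (Nat.cast_nonneg _) (hU _ h2).2.1)
  have hsize' : ∀ x ∈ T, ((pr x : ℕ) : ℝ) ≤ T0 * (U0 * P1 ^ M) := by
    intro x hx
    obtain ⟨h1, h2, h3⟩ := hmT x hx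
    rw [hpr, Nat.cast_mul]
    exact mul_le_mul (hΛ _ h1).2.1 (hsize x hx) (Nat.cast_nonneg _)
      (le_trans (Nat.cast_nonneg _) (hΛ _ h1).2.1)
  have hG0 : 0 < G := by linarith
  set B := {y ∈ T ×ˢ T | F y.1 = F y.2} with hB
  have hmB : ∀ y ∈ B, y.1 ∈ T ∧ y.2 ∈ T ∧ F y.1 = F y.2 := by
    intro y hy
    rw [hB, mem_filter, mem_product] at hy
    exact ⟨hy.1.1, hy.1.2, hy.2⟩
  have hsplit := card_filter_add_card_filter_not (s := B) (fun y => pr y.1 = pr y.2)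
  -- part 1
  have hw0 : ∀ x ∈ T, #(pr x).primeFactors ≤ 2 * W + M := by
    intro x hx
    obtain ⟨h1, h2, h3⟩ := hmT x hx
    exact card_pf3 _ (fun i => (hK _ (h3 i)).1) (hΛ _ h1).2.2.1 (hU _ h2).2.2.1
  have hB1 : #(B.filter (fun y => pr y.1 = pr y.2)) ≤ c * #T := by
    refine (card_le_mul_card_image (f := Prod.fst) _ c ?_).trans ?_
    · intro x hx
      rw [mem_image] at hx
      obtain ⟨y, hy, rfl⟩ := hx
      rw [mem_filter] at hy
      obtain ⟨y1, y2, y3⟩ := hmB y hy.1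
      calc #{w ∈ B.filter (fun y => pr y.1 = pr y.2) | w.1 = y.1}
          ≤ #(T.filter (fun w => pr w = pr y.1)) := by
            refine card_le_card_of_injOn Prod.snd ?_ ?_
            · intro w hw
              rw [mem_coe, mem_filter, mem_filter] at hw
              rw [mem_coe, mem_filter]
              obtain ⟨w1, w2, w3⟩ := hmB w hw.1.1
              refine ⟨w2, ?_⟩
              rw [← hw.1.2, hw.2]
            · intro w hw w' hw' hww
              rw [mem_coe, mem_filter] at hw hw'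
              exact Prod.ext (hw.2.trans hw'.2.symm) hww
        _ ≤ c := by
            refine card_prod_eq (n := pr y.1) (w := 2 * W + M) _ ?_ (hw0 _ y1)
            intro x hx
            rw [mem_filter] at hx
            obtain ⟨h1, h2, h3⟩ := hmT x hx.1
            exact ⟨(hΛ _ h1).1, (hU _ h2).1, fun i => (hK _ (h3 i)).1, hx.2⟩
    · refine Nat.mul_le_mul_left _ (card_le_card ?_)
      intro x hx
      rw [mem_image] at hx
      obtain ⟨y, hy, rfl⟩ := hx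
      rw [mem_filter] at hy
      exact (hmB y hy.1).1
  -- part 2
  set B2 := B.filter (fun y => ¬ pr y.1 = pr y.2) with hB2
  have hmB2 : ∀ y ∈ B2, y.1 ∈ T ∧ y.2 ∈ T ∧ F y.1 = F y.2 ∧ pr y.1 ≠ pr y.2 := by
    intro y hy
    rw [hB2, mem_filter] at hy
    obtain ⟨h1, h2, h3⟩ := hmB y hy.1
    exact ⟨h1, h2, h3, hy.2⟩
  have cA : ∀ y ∈ B2, ∀ i j, y.1.2.2 i ≠ y.2.2.2 j := by
    intro y hy i j hij
    obtain ⟨h1, h2, h3, h4⟩ := hmB2 y hy
    obtain ⟨a1, a2, a3⟩ := hmT _ h1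
    obtain ⟨b1, b2, b3⟩ := hmT _ h2
    have hle := herr2 _ h1 _ h2 h3
    apply h4
    have hY : ∀ x ∈ T, ∀ i, ((x.1 * (x.2.1 * ∏ j, Function.update x.2.2 i 1 j) : ℕ) : ℝ) ≤
        T0 * (U0 * P1 ^ M) / G := by
      intro x hx i
      rw [le_div_iff₀ hG0]
      have h5 := hsize' x hx
      have h6 : pr x = x.1 * (x.2.1 * ∏ j, Function.update x.2.2 i 1 j) * x.2.2 i := by
        rw [hpr]
        beta_reduce
        rw [← prod_upd x.2.2 i]
        ring
      rw [h6, Nat.cast_mul] at h5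
      refine le_trans ?_ h5
      exact mul_le_mul_of_nonneg_left (hK _ ((hmT x hx).2.2 i)).2.2.2.2 (Nat.cast_nonneg _)
    have hsq : ∀ x ∈ T, ∀ i j, Squarefree (Function.update x.2.2 i 1 j) := by
      intro x hx i j
      by_cases hij : j = i
      · subst hij
        rw [Function.update_self]
        exact squarefree_one
      · rw [Function.update_of_ne hij]
        exact (hK _ ((hmT x hx).2.2 j)).1.squarefree
    have key := sp2 (a := y.1.1) (b := y.1.2.1) (c := y.2.1) (d := y.2.2.1)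
      (Function.update y.1.2.2 i 1) (Function.update y.2.2.2 j 1)
      (hΛ _ a1).1 (hU _ a2).1 (hΛ _ b1).1 (hU _ b2).1 (hsq _ h1 i) (hsq _ h2 j)
      (hY _ h1 i) (hY _ h2 j) (N := N) (E := 2 * (((M + 2 : ℕ) : ℝ) * e)) ?_ hN1
    · rw [hpr]
      beta_reduce
      rw [← prod_upd y.1.2.2 i, ← prod_upd y.2.2.2 j, hij]
      calc y.1.1 * (y.1.2.1 * ((∏ j, Function.update y.1.2.2 i 1 j) * y.2.2.2 j))
          = y.1.1 * (y.1.2.1 * ∏ j, Function.update y.1.2.2 i 1 j) * y.2.2.2 j := by ring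
        _ = _ := by rw [key]; ring
    · have e1 := sum_upd y.1.2.2 i
      have e2 := sum_upd y.2.2.2 j
      have e3 : N * Lx y.1 - N * Lx y.2 =
          N * (lam y.1.1 + (lam y.1.2.1 + ∑ k, lam (Function.update y.1.2.2 i 1 k))) -
          N * (lam y.2.1 + (lam y.2.2.1 + ∑ k, lam (Function.update y.2.2.2 j 1 k))) := by
        rw [hLx]
        beta_reduce
        rw [← e1, ← e2, hij]
        ring
      rw [← e3]
      exact hle
  have cB : ∀ y ∈ B2, (Nat.gcd y.1.2.1 y.2.2.1 : ℝ) < G := by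
    intro y hy
    obtain ⟨h1, h2, h3, h4⟩ := hmB2 y hy
    obtain ⟨a1, a2, a3⟩ := hmT _ h1
    obtain ⟨b1, b2, b3⟩ := hmT _ h2
    have hle := herr2 _ h1 _ h2 h3
    by_contra hcon
    push Not at hcon
    apply h4
    obtain ⟨g, hg⟩ : ∃ g, g = Nat.gcd y.1.2.1 y.2.2.1 := ⟨_, rfl⟩
    rw [← hg] at hcon
    have hgu : g ∣ y.1.2.1 := hg ▸ Nat.gcd_dvd_left _ _
    have hgv : g ∣ y.2.2.1 := hg ▸ Nat.gcd_dvd_right _ _
    have hY : ∀ x ∈ T, ∀ k, x.2.1 = g * k →
        ((x.1 * (k * ∏ j, x.2.2 j) : ℕ) : ℝ) ≤ T0 * (U0 * P1 ^ M) / G := by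
      intro x hx k hk
      rw [le_div_iff₀ hG0]
      have h5 := hsize' x hx
      have h6 : pr x = x.1 * (k * ∏ j, x.2.2 j) * g := by
        rw [hpr]
        beta_reduce
        rw [hk]
        ring
      rw [h6, Nat.cast_mul] at h5
      exact le_trans (mul_le_mul_of_nonneg_left hcon (Nat.cast_nonneg _)) h5
    obtain ⟨k1, hk1⟩ := hgu
    obtain ⟨k2, hk2⟩ := hgv
    have s1 := (hU _ a2).1
    have s2 := (hU _ b2).1
    have l1 : lam y.1.2.1 = lam g + lam k1 := by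
      rw [hk1] at s1 ⊢; exact lam_mul_of_squarefree s1
    have l2 : lam y.2.2.1 = lam g + lam k2 := by
      rw [hk2] at s2 ⊢; exact lam_mul_of_squarefree s2
    have key := sp2 (a := y.1.1) (b := k1) (c := y.2.1) (d := k2) y.1.2.2 y.2.2.2
      (hΛ _ a1).1 (s1.squarefree_of_dvd ⟨g, by rw [hk1]; ring⟩) (hΛ _ b1).1
      (s2.squarefree_of_dvd ⟨g, by rw [hk2]; ring⟩)
      (fun i => (hK _ (a3 i)).1.squarefree) (fun i => (hK _ (b3 i)).1.squarefree)
      (hY _ h1 k1 hk1) (hY _ h2 k2 hk2) (N := N) (E := 2 * (((M + 2 : ℕ) : ℝ) * e)) ?_ hN1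
    · rw [hpr]
      beta_reduce
      rw [hk1, hk2]
      calc y.1.1 * (g * k1 * ∏ i, y.1.2.2 i) = y.1.1 * (k1 * ∏ i, y.1.2.2 i) * g := by ring
        _ = _ := by rw [key]; ring
    · have e3 : N * Lx y.1 - N * Lx y.2 =
          N * (lam y.1.1 + (lam k1 + ∑ k, lam (y.1.2.2 k))) -
          N * (lam y.2.1 + (lam k2 + ∑ k, lam (y.2.2.2 k))) := by
        rw [hLx]
        beta_reduce
        rw [l1, l2]
        ring
      rw [← e3]
      exact hle
  have hex : ∀ y ∈ B2, ∃ d, Nat.gcd y.1.2.1 y.2.2.1 ∣ d ∧ d ∣ y.1.2.1 ∧ G ≤ (d : ℝ) ∧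
      (d : ℝ) ≤ G * z := by
    intro y hy
    obtain ⟨h1, h2, h3, h4⟩ := hmB2 y hy
    obtain ⟨a1, a2, a3⟩ := hmT _ h1
    have := hU _ a2
    exact exists_mid this.1 this.2.2.2.2.1 (Nat.gcd_dvd_left _ _) (cB y hy) this.2.2.2.2.2
  choose! dd hdd using hex
  set Φ : (ℕ × ℕ × (Fin M → ℕ)) × (ℕ × ℕ × (Fin M → ℕ)) → (ℕ × ℕ) × ((Fin h → ℕ) × (Σ _ : ℕ, ℕ)) :=
    fun y => ((y.1.1, y.2.1), ((fun i => y.1.2.2 (Fin.castAdd m i)),
      ⟨dd y, Nat.gcd y.1.2.1 y.2.2.1⟩)) with hΦ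
  set R : Finset ((ℕ × ℕ) × ((Fin h → ℕ) × (Σ _ : ℕ, ℕ))) :=
    (Λ ×ˢ Λ) ×ˢ (tup K h ×ˢ (((Icc 1 ⌊G * z⌋₊).filter
      (fun d => Squarefree d ∧ #d.primeFactors ≤ W)).sigma (fun d => d.divisors))) with hR
  have hcR : (#R : ℝ) ≤ (#Λ : ℝ) ^ 2 * ((#K : ℝ) ^ h * ((G * z) * 2 ^ W)) := by
    rw [hR, card_product, card_product, card_product, card_tup, card_sigma]
    have h1 : ∑ d ∈ (Icc 1 ⌊G * z⌋₊).filter (fun d => Squarefree d ∧ #d.primeFactors ≤ W),
        #d.divisors ≤ ⌊G * z⌋₊ * 2 ^ W := by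
      calc _ ≤ ∑ d ∈ (Icc 1 ⌊G * z⌋₊).filter (fun d => Squarefree d ∧ #d.primeFactors ≤ W), 2 ^ W := by
            refine sum_le_sum fun d hd => ?_
            rw [mem_filter] at hd
            exact (card_div hd.2.1).trans (Nat.pow_le_pow_right (by norm_num) hd.2.2)
        _ = #((Icc 1 ⌊G * z⌋₊).filter (fun d => Squarefree d ∧ #d.primeFactors ≤ W)) * 2 ^ W := by
            rw [sum_const, smul_eq_mul]
        _ ≤ _ := by
            refine Nat.mul_le_mul_right _ ((card_filter_le _ _).trans ?_)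
            simp
    have h2 : (⌊G * z⌋₊ : ℝ) ≤ G * z := Nat.floor_le (by positivity)
    calc (((#Λ * #Λ) * (#K ^ h * ∑ d ∈ (Icc 1 ⌊G * z⌋₊).filter
          (fun d => Squarefree d ∧ #d.primeFactors ≤ W), #d.divisors) : ℕ) : ℝ)
        ≤ (((#Λ * #Λ) * (#K ^ h * (⌊G * z⌋₊ * 2 ^ W)) : ℕ) : ℝ) := by
          exact_mod_cast Nat.mul_le_mul_left _ (Nat.mul_le_mul_left _ h1)
      _ = (#Λ : ℝ) ^ 2 * ((#K : ℝ) ^ h * ((⌊G * z⌋₊ : ℝ) * 2 ^ W)) := by
          push_cast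
          ring
      _ ≤ _ := by gcongr
  have hB2c : #B2 ≤ c ^ 2 * #R := by
    refine (card_le_mul_card_image (f := Φ) _ (c ^ 2) ?_).trans ?_
    · intro x hx
      rw [mem_image] at hx
      obtain ⟨y0, hy0, rfl⟩ := hx
      obtain ⟨h1, h2, h3, h4⟩ := hmB2 y0 hy0
      obtain ⟨a1, a2, a3⟩ := hmT _ h1
      obtain ⟨b1, b2, b3⟩ := hmT _ h2
      set Q : ℕ → Finset (ℕ × ℕ × (Fin M → ℕ)) := fun n =>
        (({1} : Finset ℕ) ×ˢ (U ×ˢ tup K M)).filter (fun x => pr x = n) with hQ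
      have hQc : ∀ x ∈ T, #(Q (x.2.1 * ∏ i, x.2.2 i)) ≤ c := by
        intro x hx
        obtain ⟨c1, c2, c3⟩ := hmT _ hx
        refine card_prod_eq (n := x.2.1 * ∏ i, x.2.2 i) (w := 2 * W + M) _ ?_ ?_
        · intro w hw
          rw [hQ, mem_filter, mem_product, mem_product, mem_singleton] at hw
          obtain ⟨⟨w1, w2, w3⟩, w4⟩ := hw
          refine ⟨?_, (hU _ w2).1, fun i => (hK _ (mem_tup.1 w3 i)).1, w4⟩
          rw [w1]
          exact squarefree_one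
        · have := card_pf3 (t := 1) (u := x.2.1) (W := W) x.2.2 (fun i => (hK _ (c3 i)).1) (by simp)
            (hU _ c2).2.2.1
          rwa [one_mul] at this
      calc #{y ∈ B2 | Φ y = Φ y0}
          ≤ #(Q (y0.1.2.1 * ∏ i, y0.1.2.2 i) ×ˢ Q (y0.2.2.1 * ∏ i, y0.2.2.2 i)) := by
            refine card_le_card_of_injOn (fun y => ((1, y.1.2), (1, y.2.2))) ?_ ?_
            · intro y hy
              rw [mem_coe, mem_filter] at hy
              obtain ⟨hy, hΦy⟩ := hy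
              obtain ⟨g1, g2, g3, g4⟩ := hmB2 y hy
              obtain ⟨c1, c2, c3⟩ := hmT _ g1
              obtain ⟨d1, d2, d3⟩ := hmT _ g2
              rw [hΦ] at hΦy
              simp only [Prod.mk.injEq, Sigma.mk.injEq, heq_eq_eq] at hΦy
              obtain ⟨⟨f1, f2⟩, f3, f4, f5⟩ := hΦy
              obtain ⟨k1, k2, k3, k4⟩ := hdd y hy
              obtain ⟨l1, l2, l3, l4⟩ := hdd y0 hy0
              have hsp : ∀ (q : Fin M → ℕ), ∏ i, q i = (∏ i : Fin h, q (Fin.castAdd m i)) *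
                  ∏ i : Fin m, q (Fin.natAdd h i) := by
                intro q
                rw [Fin.prod_univ_add]
              have hss : ∀ (q : Fin M → ℕ), ∑ i, lam (q i) =
                  (∑ i : Fin h, lam (q (Fin.castAdd m i))) +
                  ∑ i : Fin m, lam (q (Fin.natAdd h i)) := by
                intro q
                rw [Fin.sum_univ_add]
              have hE0 : ∀ x ∈ T, ∀ d, d ∣ x.2.1 → G ≤ (d : ℝ) →
                  (((x.2.1 / d) * ∏ i : Fin m, x.2.2 (Fin.natAdd h i) : ℕ) : ℝ) ≤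
                    U0 * P1 ^ m / G := by
                intro x hx d hd hGd
                obtain ⟨r1, r2, r3⟩ := hmT _ hx
                have hd0 : (0 : ℝ) < d := by linarith
                have hU00 : (0 : ℝ) ≤ U0 := le_trans (Nat.cast_nonneg _) (hU _ r2).2.1
                have h4 : ∏ i : Fin m, ((x.2.2 (Fin.natAdd h i) : ℕ) : ℝ) ≤ P1 ^ m := by
                  calc ∏ i : Fin m, ((x.2.2 (Fin.natAdd h i) : ℕ) : ℝ) ≤ ∏ _i : Fin m, P1 :=
                        prod_le_prod (fun i _ => Nat.cast_nonneg _) fun i _ => (hK _ (r3 _)).2.1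
                    _ = P1 ^ m := by simp
                have h5 : ((x.2.1 / d : ℕ) : ℝ) ≤ U0 / G := by
                  rw [Nat.cast_div hd hd0.ne', div_le_div_iff₀ hd0 hG0]
                  exact mul_le_mul (hU _ r2).2.1 hGd hG0.le hU00
                rw [Nat.cast_mul, Nat.cast_prod]
                calc ((x.2.1 / d : ℕ) : ℝ) * ∏ i : Fin m, ((x.2.2 (Fin.natAdd h i) : ℕ) : ℝ)
                    ≤ (U0 / G) * P1 ^ m := mul_le_mul h5 h4
                      (prod_nonneg fun i _ => Nat.cast_nonneg _) (by positivity)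
                  _ = _ := by ring
              have hF0 : ∀ x ∈ T, ∀ g, g ∣ x.2.1 → 
                  (((x.2.1 / g) * ∏ i, x.2.2 i : ℕ) : ℝ) ≤ U0 * P1 ^ M := by
                intro x hx g hg
                refine le_trans ?_ (hsize x hx)
                exact_mod_cast Nat.mul_le_mul_right _ (Nat.div_le_self _ _)
              have key := det_pair (N := N) (e := 2 * (((M + 2 : ℕ) : ℝ) * e))
                (E0 := U0 * P1 ^ m / G) (F0 := U0 * P1 ^ M) (z := z)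
                (t := y.1.1) (t' := y.2.1) (u1 := y.1.2.1) (u2 := y0.1.2.1) (v1 := y.2.2.1)
                (v2 := y0.2.2.1) (d := dd y) (g := Nat.gcd y.1.2.1 y.2.2.1)
                (a := fun i => y.1.2.2 (Fin.castAdd m i))
                (b1 := fun i => y.1.2.2 (Fin.natAdd h i))
                (b2 := fun i => y0.1.2.2 (Fin.natAdd h i))
                (c1 := y.2.2.2) (c2 := y0.2.2.2)
                (hU _ c2).1 (hU _ a2).1 (hU _ d2).1 (hU _ b2).1
                (fun i => (hK _ (c3 _)).1) (fun i => (hK _ (a3 _)).1)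
                (fun i => (hK _ (d3 _)).1) (fun i => (hK _ (b3 _)).1)
                (fun i => (hK _ (c3 _)).2.2.2.1) (fun i => (hK _ (a3 _)).2.2.2.1)
                (fun i => (hK _ (d3 _)).2.2.2.1) (fun i => (hK _ (b3 _)).2.2.2.1)
                (hU _ c2).2.2.2.2.1 (hU _ a2).2.2.2.2.1
                (hU _ d2).2.2.2.2.1 (hU _ b2).2.2.2.2.1
                (fun i j => cA y hy _ _) (fun i j => cA y0 hy0 _ _)
                k2 (f4 ▸ l2) k1 rfl f5.symm ?_ ?_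
                (hE0 _ g1 _ k2 k3) (hE0 _ h1 _ (f4 ▸ l2) (f4 ▸ l3))
                (hF0 _ g2 _ (Nat.gcd_dvd_right _ _))
                (hF0 _ h2 _ (f5 ▸ Nat.gcd_dvd_right _ _)) hN2
              · obtain ⟨key1, key2⟩ := key
                rw [mem_coe, mem_product, hQ, mem_filter, mem_filter, mem_product, mem_product,
                  mem_product, mem_product]
                refine ⟨⟨⟨mem_singleton_self _, c2, mem_tup.2 c3⟩, ?_⟩,
                  ⟨⟨mem_singleton_self _, d2, mem_tup.2 d3⟩, ?_⟩⟩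
                · rw [hpr]
                  beta_reduce
                  rw [one_mul, hsp y.1.2.2, hsp y0.1.2.2]
                  have f3' : (∏ i : Fin h, y.1.2.2 (Fin.castAdd m i)) =
                      ∏ i : Fin h, y0.1.2.2 (Fin.castAdd m i) :=
                    prod_congr rfl fun i _ => congrFun f3 i
                  rw [← f3']
                  calc y.1.2.1 * ((∏ i : Fin h, y.1.2.2 (Fin.castAdd m i)) *
                        ∏ i : Fin m, y.1.2.2 (Fin.natAdd h i))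
                      = (∏ i : Fin h, y.1.2.2 (Fin.castAdd m i)) * (y.1.2.1 *
                        ∏ i : Fin m, y.1.2.2 (Fin.natAdd h i)) := by ring
                    _ = _ := by rw [key1]; ring
                · rw [hpr]
                  beta_reduce
                  rw [one_mul]
                  exact key2
              · have := herr2 _ g1 _ g2 g3
                rw [hLx] at this
                beta_reduce at this
                rw [hss y.1.2.2] at this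
                exact this
              · have := herr2 _ h1 _ h2 h3
                rw [hLx] at this
                beta_reduce at this
                rw [hss y0.1.2.2, ← f1, ← f2] at this
                have f3' : (∑ i : Fin h, lam (y.1.2.2 (Fin.castAdd m i))) =
                      ∑ i : Fin h, lam (y0.1.2.2 (Fin.castAdd m i)) :=
                    sum_congr rfl fun i _ => by rw [congrFun f3 i]
                rw [← f3'] at this
                exact this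
            · intro y hy y' hy' hyy
              rw [mem_coe, mem_filter] at hy hy'
              have hΦΦ := hy.2.trans hy'.2.symm
              rw [hΦ] at hΦΦ
              simp only [Prod.mk.injEq] at hΦΦ hyy
              refine Prod.ext (Prod.ext hΦΦ.1.1 hyy.1.2) (Prod.ext hΦΦ.1.2 hyy.2.2)
        _ ≤ c ^ 2 := by
            rw [card_product, sq]
            exact Nat.mul_le_mul (hQc _ h1) (hQc _ h2)
    · refine Nat.mul_le_mul_left _ (card_le_card ?_)
      intro x hx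
      rw [mem_image] at hx
      obtain ⟨y, hy, rfl⟩ := hx
      obtain ⟨h1, h2, h3, h4⟩ := hmB2 y hy
      obtain ⟨a1, a2, a3⟩ := hmT _ h1
      obtain ⟨b1, b2, b3⟩ := hmT _ h2
      obtain ⟨k1, k2, k3, k4⟩ := hdd y hy
      have hdd0 : 1 ≤ dd y := Nat.pos_of_dvd_of_pos k2 (Nat.pos_of_ne_zero (hU _ a2).1.ne_zero)
      rw [hR, hΦ, mem_product, mem_product, mem_product, mem_sigma, mem_filter, mem_Icc]
      refine ⟨⟨a1, b1⟩, mem_tup.2 fun i => a3 _, ⟨⟨hdd0, Nat.le_floor k4⟩,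
        (hU _ a2).1.squarefree_of_dvd k2, ?_⟩, ?_⟩
      · exact (card_le_card (Nat.primeFactors_mono k2 (hU _ a2).1.ne_zero)).trans (hU _ a2).2.2.1
      · exact Nat.mem_divisors.2 ⟨k1, Nat.pos_iff_ne_zero.1 hdd0⟩
  have hen : en T F = #B := rfl
  have hTc : #T = #Λ * (#U * #K ^ M) := by
    rw [hT, card_product, card_product, card_tup]
  have h1 : en T F ≤ c * #T + c ^ 2 * #R := by
    rw [hen, ← hsplit]
    exact Nat.add_le_add hB1 hB2c
  calc (en T F : ℝ) ≤ ((c * #T + c ^ 2 * #R : ℕ) : ℝ) := by exact_mod_cast h1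
    _ = #Λ * (#U * (#K : ℝ) ^ M) * (c : ℝ) + (#R : ℝ) * (c : ℝ) ^ 2 := by
        rw [hTc]; push_cast; ring
    _ ≤ _ := by gcongr

end Pool.Agent.Helper13.P3
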