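import Mathlib
import Pool.Agent.Helper13.P3.WinHalf
import Pool.Agent.Helper13.P3.Disj2

/-!
# PS4: quadruples of pieces; T1 for disjoint primes, `s + 2 ≤ r`
-/

namespace Pool.Agent.Helper19.P3

open Finset Pool.Agent.Helper58.LT

theorem Sm_mono {κ M M' : ℕ} (h : M ≤ M') : Sm κ M ⊆ Sm κ M' := by
  classical
  intro x hx
  unfold Sm at hx ⊢
  rw [mem_filter, mem_Icc] at hx ⊢
  exact ⟨⟨hx.1.1, hx.1.2.trans (Nat.pow_le_pow_right (by norm_num) h)⟩, hx.2⟩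

theorem Sm_card_le (κ M : ℕ) : #(Sm κ M) ≤ 2 ^ M := by
  classical
  unfold Sm
  refine (card_filter_le _ _).trans ?_
  rw [Nat.card_Icc, Nat.add_sub_cancel]

/-- quadruples of pieces: `λ(x₁x₂) - λ(x₁'x₂')` is small -/
theorem quad_count (i c₀ : ℕ) (hi : 1 ≤ i) : ∃ C : ℕ, ∀ β κ : ℕ, Ok i β κ → C * κ ≤ β →
    ∀ X : Finset ℕ, X ⊆ Sm κ (β / 2 + c₀ * κ) →
      #{z ∈ (X ×ˢ X) ×ˢ (X ×ˢ X) | |(psiS (2 ^ ((2 * i + 1) * β)) z.1.1 +
        psiS (2 ^ ((2 * i + 1) * β)) z.1.2) - (psiS (2 ^ ((2 * i + 1) * β)) z.2.1 +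
        psiS (2 ^ ((2 * i + 1) * β)) z.2.2)| ≤ 2 ^ (2 * i * β + c₀ * κ)} ≤
      2 ^ (β + (β + 1) / 2 + C * κ) := by
  classical
  obtain ⟨C, hC⟩ := window_half i c₀
  refine ⟨C + 3 * c₀, ?_⟩
  intro β κ hok hCβ X hX
  have hCβ' : C * κ ≤ β := le_trans (Nat.mul_le_mul_right κ (by omega)) hCβ
  have hX' : X ⊆ Sm κ ((β + 1) / 2 + c₀ * κ) := by
    refine hX.trans (Sm_mono ?_)
    have : β / 2 ≤ (β + 1) / 2 := Nat.div_le_div_right (by omega)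
    omega
  have hXc : #X ≤ 2 ^ (β / 2 + c₀ * κ) := (card_le_card hX).trans (Sm_card_le _ _)
  set N : ℕ := 2 ^ ((2 * i + 1) * β) with hN
  set S := {z ∈ (X ×ˢ X) ×ˢ (X ×ˢ X) | |(psiS N z.1.1 + psiS N z.1.2) -
    (psiS N z.2.1 + psiS N z.2.2)| ≤ 2 ^ (2 * i * β + c₀ * κ)} with hS
  have h1 : #S ≤ 2 ^ (C * κ) * #(S.image fun z => (z.1, z.2.1)) := by
    refine card_le_mul_card_image (f := fun z : (ℕ × ℕ) × (ℕ × ℕ) => (z.1, z.2.1)) _ _ ?_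
    intro a ha
    rw [mem_image] at ha
    obtain ⟨w, hw, rfl⟩ := ha
    calc #{z ∈ S | (z.1, z.2.1) = (w.1, w.2.1)}
        ≤ #(X.filter fun y => |psiS N y - (psiS N w.1.1 + psiS N w.1.2 - psiS N w.2.1)| ≤
            ((2 ^ (2 * i * β + c₀ * κ) : ℕ) : ℤ)) := by
          refine card_le_card_of_injOn (fun z => z.2.2) ?_ ?_
          · intro z hz
            rw [mem_coe, mem_filter, hS, mem_filter, mem_product, mem_product, mem_product] at hz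
            obtain ⟨⟨⟨⟨z1, z2⟩, ⟨z3, z4⟩⟩, z5⟩, z6⟩ := hz
            simp only [Prod.mk.injEq] at z6
            rw [mem_coe, mem_filter]
            refine ⟨z4, ?_⟩
            rw [z6.1, z6.2] at z5
            rw [abs_le] at z5 ⊢
            push_cast
            constructor <;> linarith [z5.1, z5.2]
          · intro z hz z' hz' hzz
            rw [mem_coe, mem_filter] at hz hz'
            have h2 := hz.2.trans hz'.2.symm
            simp only [Prod.mk.injEq] at h2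
            exact Prod.ext h2.1 (Prod.ext h2.2 hzz)
      _ ≤ 2 ^ (C * κ) := by
          refine hC β κ hok hCβ' (psiS N w.1.1 + psiS N w.1.2 - psiS N w.2.1)
            (2 ^ (2 * i * β + c₀ * κ)) le_rfl _ ((filter_subset _ X).trans hX') ?_
          intro x hx
          rw [mem_filter] at hx
          exact hx.2
  have h2 : #(S.image fun z => (z.1, z.2.1)) ≤ #X * #X * #X := by
    calc #(S.image fun z => (z.1, z.2.1)) ≤ #((X ×ˢ X) ×ˢ X) := by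
          refine card_le_card ?_
          intro x hx
          rw [mem_image] at hx
          obtain ⟨z, hz, rfl⟩ := hx
          rw [hS, mem_filter] at hz
          have h3 := mem_product.1 hz.1
          exact mem_product.2 ⟨h3.1, (mem_product.1 h3.2).1⟩
      _ = _ := by rw [card_product, card_product]
  have h3 : #X * #X * #X ≤ 2 ^ (3 * (β / 2 + c₀ * κ)) := by
    calc #X * #X * #X ≤ 2 ^ (β / 2 + c₀ * κ) * 2 ^ (β / 2 + c₀ * κ) * 2 ^ (β / 2 + c₀ * κ) :=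
          Nat.mul_le_mul (Nat.mul_le_mul hXc hXc) hXc
      _ = _ := by rw [← pow_add, ← pow_add]; congr 1; ring
  calc #S ≤ 2 ^ (C * κ) * 2 ^ (3 * (β / 2 + c₀ * κ)) := h1.trans (Nat.mul_le_mul_left _ (h2.trans h3))
    _ = 2 ^ (3 * (β / 2) + (C + 3 * c₀) * κ) := by rw [← pow_add]; congr 1; ring
    _ ≤ _ := by
        apply Nat.pow_le_pow_right (by norm_num)
        have : 3 * (β / 2) ≤ β + (β + 1) / 2 := by omega
        omega

/-- the values of `psiS` at the cluster primes -/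
theorem psiS_PP_le {i β κ p : ℕ} (hp : p ∈ PP β κ) (hκ : κ ≤ β) :
    psiS (2 ^ ((2 * i + 1) * β)) p ≤ 2 ^ (2 * i * β + κ + 1) := by
  obtain ⟨⟨h1, h2⟩, h3⟩ := PP_mem.1 hp
  rw [psiS_prime h3]
  have hp0 : (0 : ℝ) < p := by exact_mod_cast h3.pos
  have h4 : (psi (2 ^ ((2 * i + 1) * β)) p : ℝ) ≤ 2 ^ (2 * i * β + κ + 1) := by
    calc (psi (2 ^ ((2 * i + 1) * β)) p : ℝ) ≤ ((2 ^ ((2 * i + 1) * β) : ℕ) : ℝ) * lam p := by
          unfold psi; exact Int.floor_le _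
      _ ≤ ((2 ^ ((2 * i + 1) * β) : ℕ) : ℝ) * (2 / p) :=
          mul_le_mul_of_nonneg_left (Pool.Agent.Helper13.PS.lam_prime_le h3) (Nat.cast_nonneg _)
      _ ≤ 2 ^ (2 * i * β + κ + 1) := by
          rw [← mul_div_assoc, div_le_iff₀ hp0]
          have h5 : (2 : ℝ) ^ (β - κ) ≤ p := by exact_mod_cast h1
          calc ((2 ^ ((2 * i + 1) * β) : ℕ) : ℝ) * 2 = 2 ^ (2 * i * β + κ + 1) * 2 ^ (β - κ) := by
                push_cast
                rw [← pow_succ, ← pow_add]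
                congr 1
                have : (2 * i + 1) * β = 2 * i * β + β := by ring
                omega
            _ ≤ _ := mul_le_mul_of_nonneg_left h5 (by positivity)
  exact_mod_cast h4

theorem sm_PP_le {i β κ m : ℕ} (c : Fin m → ℕ) (hc : ∀ j, c j ∈ PP β κ) (hκ : κ ≤ β) :
    0 ≤ sm' (psiS (2 ^ ((2 * i + 1) * β))) c ∧
      sm' (psiS (2 ^ ((2 * i + 1) * β))) c ≤ m * 2 ^ (2 * i * β + κ + 1) := by
  unfold sm'
  constructor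
  · exact sum_nonneg fun j _ => psiS_nonneg _ _
  · calc ∑ j, psiS (2 ^ ((2 * i + 1) * β)) (c j) ≤ ∑ _j : Fin m, (2 ^ (2 * i * β + κ + 1) : ℤ) :=
          sum_le_sum fun j _ => psiS_PP_le (hc j) hκ
      _ = m * 2 ^ (2 * i * β + κ + 1) := by simp

/-- `psiS` of the product of a quadruple -/
theorem psiS_prod4 {N m t x y : ℕ} (c : Fin m → ℕ) (ht : t ≠ 0) (hx : x ≠ 0) (hy : y ≠ 0)
    (hc : ∀ j, c j ≠ 0) : psiS N (t * (x * (y * ∏ j, c j))) =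
      psiS N t + (psiS N x + psiS N y) + sm' (psiS N) c := by
  have h1 : ∏ j, c j ≠ 0 := prod_ne_zero_iff.2 fun j _ => hc j
  rw [psiS_mul ht (mul_ne_zero hx (mul_ne_zero hy h1)), psiS_mul hx (mul_ne_zero hy h1),
    psiS_mul hy h1, psiS_prod c hc]
  unfold sm'
  ring

/-- equality of the products forces the pieces to be close -/
theorem close_of_eq {i r c₀ β κ : ℕ} (hκ : κ ≤ β) (hκ1 : 1 ≤ κ) (hr : 1 ≤ r) {t t' x y x' y' : ℕ}
    {a₀ : ℤ} {c c' : Fin (r - 1) → ℕ} (hc : ∀ j, c j ∈ PP β κ) (hc' : ∀ j, c' j ∈ PP β κ)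
    (ht : |psiS (2 ^ ((2 * i + 1) * β)) t - a₀| ≤ 2 ^ (2 * i * β + c₀ * κ))
    (ht' : |psiS (2 ^ ((2 * i + 1) * β)) t' - a₀| ≤ 2 ^ (2 * i * β + c₀ * κ))
    (h : psiS (2 ^ ((2 * i + 1) * β)) t + (psiS (2 ^ ((2 * i + 1) * β)) x +
      psiS (2 ^ ((2 * i + 1) * β)) y) + sm' (psiS (2 ^ ((2 * i + 1) * β))) c =
      psiS (2 ^ ((2 * i + 1) * β)) t' + (psiS (2 ^ ((2 * i + 1) * β)) x' +
      psiS (2 ^ ((2 * i + 1) * β)) y') + sm' (psiS (2 ^ ((2 * i + 1) * β))) c') :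
    |(psiS (2 ^ ((2 * i + 1) * β)) x + psiS (2 ^ ((2 * i + 1) * β)) y) -
      (psiS (2 ^ ((2 * i + 1) * β)) x' + psiS (2 ^ ((2 * i + 1) * β)) y')| ≤
      2 ^ (2 * i * β + (c₀ + r + 3) * κ) := by
  obtain ⟨s1, s2⟩ := sm_PP_le (i := i) c hc hκ
  obtain ⟨s3, s4⟩ := sm_PP_le (i := i) c' hc' hκ
  generalize psiS (2 ^ ((2 * i + 1) * β)) t = A at *
  generalize psiS (2 ^ ((2 * i + 1) * β)) t' = A' at *
  generalize psiS (2 ^ ((2 * i + 1) * β)) x + psiS (2 ^ ((2 * i + 1) * β)) y = E at *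
  generalize psiS (2 ^ ((2 * i + 1) * β)) x' + psiS (2 ^ ((2 * i + 1) * β)) y' = E' at *
  generalize sm' (psiS (2 ^ ((2 * i + 1) * β))) c = σ at *
  generalize sm' (psiS (2 ^ ((2 * i + 1) * β))) c' = σ' at *
  have hb : (2 : ℤ) * 2 ^ (2 * i * β + c₀ * κ) + ((r - 1 : ℕ) : ℤ) * 2 ^ (2 * i * β + κ + 1) ≤
      2 ^ (2 * i * β + (c₀ + r + 3) * κ) := by
    have h1 : (2 : ℤ) * 2 ^ (2 * i * β + c₀ * κ) ≤ 2 ^ (2 * i * β + (c₀ + r + 3) * κ - 1) := by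
      rw [← pow_succ']
      apply pow_le_pow_right₀ (by norm_num)
      have : (c₀ + r + 3) * κ = c₀ * κ + (r + 3) * κ := by ring
      have : 4 ≤ (r + 3) * κ := by nlinarith
      omega
    have h2 : ((r - 1 : ℕ) : ℤ) * 2 ^ (2 * i * β + κ + 1) ≤
        2 ^ (2 * i * β + (c₀ + r + 3) * κ - 1) := by
      have h3 : ((r - 1 : ℕ) : ℤ) ≤ 2 ^ (r - 1) := by
        exact_mod_cast (Nat.lt_two_pow_self (n := r - 1)).le
      calc ((r - 1 : ℕ) : ℤ) * 2 ^ (2 * i * β + κ + 1) ≤ 2 ^ (r - 1) * 2 ^ (2 * i * β + κ + 1) :=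
            mul_le_mul_of_nonneg_right h3 (by positivity)
        _ = 2 ^ ((r - 1) + (2 * i * β + κ + 1)) := by rw [← pow_add]
        _ ≤ _ := by
            apply pow_le_pow_right₀ (by norm_num)
            have e1 : (c₀ + r + 3) * κ = c₀ * κ + r * κ + 3 * κ := by ring
            have e2 : r ≤ r * κ := Nat.le_mul_of_pos_right _ hκ1
            omega
    have h4 : (2 : ℤ) ^ (2 * i * β + (c₀ + r + 3) * κ - 1) +
        2 ^ (2 * i * β + (c₀ + r + 3) * κ - 1) = 2 ^ (2 * i * β + (c₀ + r + 3) * κ) := by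
      rw [← two_mul, ← pow_succ']
      congr 1
      have : 0 < (c₀ + r + 3) * κ := by positivity
      omega
    linarith
  rw [abs_le] at ht ht' ⊢
  constructor <;> linarith [ht.1, ht.2, ht'.1, ht'.2]

/-- T1, disjoint primes, `s + 2 ≤ r` -/
theorem T1_high (i r s c₀ : ℕ) (hsr : s + r = i + 1) (hs : 2 ≤ s) (hrs : s + 2 ≤ r) :
    ∃ C : ℕ, ∀ β κ : ℕ, Ok i β κ → C * κ ≤ β → ∀ Λ X : Finset ℕ,
      Λ ⊆ Sm κ (s * β + c₀ * κ) → X ⊆ Sm κ (β / 2 + c₀ * κ) →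
      #Λ ≤ 2 ^ ((s - 1) * β + (β + 1) / 2 + c₀ * κ) → ∀ a₀ : ℤ,
      (∀ t ∈ Λ, |psiS (2 ^ ((2 * i + 1) * β)) t - a₀| ≤ 2 ^ (2 * i * β + c₀ * κ)) →
      #{z ∈ (Λ ×ˢ X ×ˢ X ×ˢ tup (PP β κ) (r - 1)) ×ˢ (Λ ×ˢ X ×ˢ X ×ˢ tup (PP β κ) (r - 1)) |
        psiS (2 ^ ((2 * i + 1) * β)) (z.1.1 * (z.1.2.1 * (z.1.2.2.1 * ∏ j, z.1.2.2.2 j))) =
        psiS (2 ^ ((2 * i + 1) * β)) (z.2.1 * (z.2.2.1 * (z.2.2.2.1 * ∏ j, z.2.2.2.2 j))) ∧
        ∀ j k, z.1.2.2.2 j ≠ z.2.2.2.2 k} ≤ 2 ^ (i * β + (β + 1) / 2 + C * κ) := by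
  classical
  obtain ⟨C1, hC1⟩ := quad_count i (c₀ + r + 3) (by omega)
  obtain ⟨C2, hC2⟩ := key_disj2 i r s c₀ hsr hs hrs
  refine ⟨C1 + C2 + 2 * c₀ + 1, ?_⟩
  intro β κ hok hC Λ X hΛ hX hΛc a₀ hw
  have hκ := hok.one
  have hκβ : κ ≤ β := le_trans (by nlinarith) hC
  have hC1' : C1 * κ ≤ β := le_trans (Nat.mul_le_mul_right κ (by omega)) hC
  have hC2' : C2 * κ ≤ β := le_trans (Nat.mul_le_mul_right κ (by omega)) hC
  have hXa : X ⊆ Sm κ (β / 2 + (c₀ + r + 3) * κ) := by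
    refine hX.trans (Sm_mono ?_)
    have : c₀ * κ ≤ (c₀ + r + 3) * κ := Nat.mul_le_mul_right κ (by omega)
    omega
  have hXb : X ⊆ Sm κ ((β + 1) / 2 + c₀ * κ) := by
    refine hX.trans (Sm_mono ?_)
    have : β / 2 ≤ (β + 1) / 2 := Nat.div_le_div_right (by omega)
    omega
  have h1 := hC1 β κ hok hC1' X hXa
  set N : ℕ := 2 ^ ((2 * i + 1) * β) with hN
  set Pr := {z ∈ (X ×ˢ X) ×ˢ (X ×ˢ X) | |(psiS N z.1.1 + psiS N z.1.2) -
    (psiS N z.2.1 + psiS N z.2.2)| ≤ 2 ^ (2 * i * β + (c₀ + r + 3) * κ)} with hPr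
  have h2 := hC2 β κ hok hC2' Λ X hΛ hXb Pr (by
    intro z hz hzz
    rw [mem_product, mem_product, mem_product, mem_product, mem_product, mem_product,
      mem_product] at hz
    obtain ⟨⟨a1, a2, a3⟩, ⟨b1, b2, b3⟩⟩ := hz
    rw [hPr, mem_filter, mem_product, mem_product, mem_product]
    exact ⟨⟨a2, b2⟩, close_of_eq hκβ hκ (by omega) (mem_tup.1 a3) (mem_tup.1 b3) (hw _ a1)
      (hw _ b1) hzz⟩)
  have hSm0 : ∀ {M x : ℕ}, x ∈ Sm κ M → x ≠ 0 := by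
    intro M x hx
    unfold Sm at hx
    rw [mem_filter, mem_Icc] at hx
    omega
  have h3 : #{z ∈ (Λ ×ˢ X ×ˢ X ×ˢ tup (PP β κ) (r - 1)) ×ˢ (Λ ×ˢ X ×ˢ X ×ˢ tup (PP β κ) (r - 1)) |
        psiS N (z.1.1 * (z.1.2.1 * (z.1.2.2.1 * ∏ j, z.1.2.2.2 j))) =
        psiS N (z.2.1 * (z.2.2.1 * (z.2.2.2.1 * ∏ j, z.2.2.2.2 j))) ∧
        ∀ j k, z.1.2.2.2 j ≠ z.2.2.2.2 k} ≤
      #{z ∈ (Λ ×ˢ (X ×ˢ X) ×ˢ tup (PP β κ) (r - 1)) ×ˢ
          (Λ ×ˢ (X ×ˢ X) ×ˢ tup (PP β κ) (r - 1)) |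
        psiS N z.1.1 + (psiS N z.1.2.1.1 + psiS N z.1.2.1.2) + sm' (psiS N) z.1.2.2 =
        psiS N z.2.1 + (psiS N z.2.2.1.1 + psiS N z.2.2.1.2) + sm' (psiS N) z.2.2.2 ∧
        ∀ j j', z.1.2.2 j ≠ z.2.2.2 j'} := by
    refine card_le_card_of_injOn (fun z => ((z.1.1, ((z.1.2.1, z.1.2.2.1), z.1.2.2.2)),
      (z.2.1, ((z.2.2.1, z.2.2.2.1), z.2.2.2.2)))) ?_ ?_
    · intro z hz
      rw [mem_coe, mem_filter] at hz
      obtain ⟨hz1, hz2, hz3⟩ := hz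
      simp only [mem_product] at hz1
      obtain ⟨⟨a1, a2, a3, a4⟩, ⟨b1, b2, b3, b4⟩⟩ := hz1
      rw [psiS_prod4 _ (hSm0 (hΛ a1)) (hSm0 (hX a2)) (hSm0 (hX a3))
        fun j => (PP_mem.1 (mem_tup.1 a4 j)).2.ne_zero, psiS_prod4 _ (hSm0 (hΛ b1))
        (hSm0 (hX b2)) (hSm0 (hX b3)) fun j => (PP_mem.1 (mem_tup.1 b4 j)).2.ne_zero] at hz2
      rw [mem_coe, mem_filter]
      simp only [mem_product]
      exact ⟨⟨⟨a1, ⟨a2, a3⟩, a4⟩, ⟨b1, ⟨b2, b3⟩, b4⟩⟩, hz2, hz3⟩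
    · intro z _ z' _ hzz
      simp only [Prod.mk.injEq] at hzz
      obtain ⟨⟨e1, ⟨e2, e3⟩, e4⟩, ⟨f1, ⟨f2, f3⟩, f4⟩⟩ := hzz
      exact Prod.ext (Prod.ext e1 (Prod.ext e2 (Prod.ext e3 e4)))
        (Prod.ext f1 (Prod.ext f2 (Prod.ext f3 f4)))
  refine h3.trans (h2.trans ?_)
  calc #Pr * #Λ * #Λ * 2 ^ ((r - s - 1) * β + C2 * κ)
      ≤ 2 ^ (β + (β + 1) / 2 + C1 * κ) * 2 ^ ((s - 1) * β + (β + 1) / 2 + c₀ * κ) *
          2 ^ ((s - 1) * β + (β + 1) / 2 + c₀ * κ) * 2 ^ ((r - s - 1) * β + C2 * κ) :=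
        Nat.mul_le_mul_right _ (Nat.mul_le_mul (Nat.mul_le_mul h1 hΛc) hΛc)
    _ = 2 ^ ((β + (β + 1) / 2 + C1 * κ) + ((s - 1) * β + (β + 1) / 2 + c₀ * κ) +
          ((s - 1) * β + (β + 1) / 2 + c₀ * κ) + ((r - s - 1) * β + C2 * κ)) := by
        rw [← pow_add, ← pow_add, ← pow_add]
    _ ≤ _ := by
        apply Nat.pow_le_pow_right (by norm_num)
        obtain ⟨s', rfl⟩ : ∃ s', s = s' + 2 := ⟨s - 2, by omega⟩
        obtain ⟨r', rfl⟩ : ∃ r', r = s' + 2 + 2 + r' := ⟨r - (s' + 4), by omega⟩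
        have hi' : i = 2 * s' + 5 + r' := by omega
        subst hi'
        have e1 : s' + 2 - 1 = s' + 1 := by omega
        have e2 : s' + 2 + 2 + r' - (s' + 2) - 1 = r' + 1 := by omega
        rw [e1, e2]
        have e3 : (β + 1) / 2 + (β + 1) / 2 ≤ β + 1 := by omega
        have e4 : (s' + 1) * β + (s' + 1) * β + (r' + 1) * β + β + β =
          (2 * s' + 5 + r') * β := by ring
        have e5 : (C1 + C2 + 2 * c₀ + 1) * κ = C1 * κ + C2 * κ + c₀ * κ + c₀ * κ + κ := by ring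
        rw [e5]
        omega

end Pool.Agent.Helper19.P3
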