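import Mathlib
import Pool.Agent.Helper58.LT.Spacing
import Pool.Agent.Helper6.LehmerCount.Growth

/-!
# PS4, the smooth range: Lehmer numbers all of whose prime factors are at most `(log x)^A`
-/

namespace Pool.Agent.Helper13.SmallP

open Finset Pool.Agent.Helper6.Lehmer Pool.Agent.Helper6.LehmerCount Pool.Agent.Helper58.LT

theorem rankin (F : Finset ℕ) (hF : ∀ p ∈ F, p.Prime) (σ X : ℝ) (hσ : 0 ≤ σ) (hX : 0 ≤ X)
    (D : Finset ℕ)
    (hD : ∀ d ∈ D, Squarefree d ∧ d.primeFactors ⊆ F ∧ (d : ℝ) ≤ X) :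
    (#D : ℝ) ≤ X ^ σ * ∏ p ∈ F, (1 + (p : ℝ) ^ (-σ)) := by
  classical
  have h1 : ∀ d ∈ D, (1 : ℝ) ≤ X ^ σ * ∏ p ∈ d.primeFactors, (p : ℝ) ^ (-σ) := by
    intro d hd
    obtain ⟨h1, h2, h3⟩ := hD d hd
    have hd0 : (0 : ℝ) < d := by exact_mod_cast Nat.pos_of_ne_zero h1.ne_zero
    have h4 : ∏ p ∈ d.primeFactors, (p : ℝ) ^ (-σ) = (d : ℝ) ^ (-σ) := by
      rw [Real.finset_prod_rpow _ _ fun p _ => Nat.cast_nonneg _, ← Nat.cast_prod,
        Nat.prod_primeFactors_of_squarefree h1]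
    rw [h4, Real.rpow_neg hd0.le, ← div_eq_mul_inv, one_le_div (by positivity)]
    exact Real.rpow_le_rpow hd0.le h3 hσ
  rw [prod_one_add, mul_sum]
  calc (#D : ℝ) = ∑ _d ∈ D, (1 : ℝ) := by simp
    _ ≤ ∑ d ∈ D, X ^ σ * ∏ p ∈ d.primeFactors, (p : ℝ) ^ (-σ) := sum_le_sum h1
    _ = ∑ t ∈ D.image Nat.primeFactors, X ^ σ * ∏ p ∈ t, (p : ℝ) ^ (-σ) := by
        rw [sum_image]
        intro d hd e he hde
        rw [mem_coe] at hd he
        rw [← Nat.prod_primeFactors_of_squarefree (hD d hd).1, hde,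
          Nat.prod_primeFactors_of_squarefree (hD e he).1]
    _ ≤ _ := by
        refine sum_le_sum_of_subset_of_nonneg ?_ ?_
        · intro t ht
          rw [mem_image] at ht
          obtain ⟨d, hd, rfl⟩ := ht
          exact mem_powerset.2 (hD d hd).2.1
        · intro t _ _
          exact mul_nonneg (Real.rpow_nonneg hX _) (prod_nonneg fun p _ => by positivity)

/-- divisors just above the square root -/
theorem exists_half {n x : ℕ} {y : ℝ} (hx1 : 1 ≤ x) (hn : n ≠ 0) (hy : ∀ q ∈ n.primeFactors, (q : ℝ) ≤ y)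
    (hy1 : 1 ≤ y) : ∃ d, d ∣ n ∧ (d : ℝ) ≤ Real.sqrt x * y ∧ (d = n ∨ (x ≤ d ^ 2 ∧ d < n)) := by
  classical
  by_cases hnx : (n : ℝ) ≤ Real.sqrt x * y
  · exact ⟨n, dvd_rfl, hnx, Or.inl rfl⟩
  · push Not at hnx
    have hx0 : (0 : ℝ) ≤ Real.sqrt x := Real.sqrt_nonneg _
    have hsx : Real.sqrt x * Real.sqrt x = x := Real.mul_self_sqrt (Nat.cast_nonneg _)
    have hn1 : Real.sqrt x < n := lt_of_le_of_lt (le_mul_of_one_le_right hx0 hy1) hnx
    have hxn : x ≤ n ^ 2 := by
      have : (x : ℝ) ≤ (n : ℝ) ^ 2 := by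
        rw [← hsx, sq]
        exact mul_self_le_mul_self hx0 hn1.le
      exact_mod_cast this
    obtain ⟨d, hd, hmin⟩ := Finset.exists_min_image (n.divisors.filter fun d => x ≤ d ^ 2)
      (fun d => d) ⟨n, by rw [mem_filter, Nat.mem_divisors]; exact ⟨⟨dvd_rfl, hn⟩, hxn⟩⟩
    rw [mem_filter, Nat.mem_divisors] at hd
    have hdle : (d : ℝ) ≤ Real.sqrt x * y := by
      rcases Nat.lt_or_ge 1 d with h1 | h1
      · obtain ⟨q, hq, e, he⟩ := Nat.exists_prime_and_dvd (n := d) (by omega)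
        have hqn : q ∣ n := dvd_trans ⟨e, he⟩ hd.1.1
        have hqy := hy q (Nat.mem_primeFactors.2 ⟨hq, hqn, hn⟩)
        have he0 : 0 < e := by
          rcases Nat.eq_zero_or_pos e with h0 | h0
          · rw [h0, mul_zero] at he; omega
          · exact h0
        have hlt : e ^ 2 < x := by
          by_contra hcon
          push Not at hcon
          have h2 := hmin e (by
            rw [mem_filter, Nat.mem_divisors]
            exact ⟨⟨dvd_trans ⟨q, by rw [he]; ring⟩ hd.1.1, hn⟩, hcon⟩)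
          have h3 : d ≤ e := h2
          have h4 : 2 * e ≤ q * e := Nat.mul_le_mul_right _ hq.two_le
          omega
        have h5 : (e : ℝ) ≤ Real.sqrt x := by
          apply Real.le_sqrt_of_sq_le
          exact_mod_cast hlt.le
        rw [he, Nat.cast_mul, mul_comm]
        exact mul_le_mul h5 hqy (Nat.cast_nonneg _) hx0
      · have h2 : (d : ℝ) ≤ 1 := by exact_mod_cast h1
        have h3 : (1 : ℝ) ≤ Real.sqrt x := by
          apply Real.le_sqrt_of_sq_le
          rw [one_pow]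
          exact_mod_cast hx1
        nlinarith
    refine ⟨d, hd.1.1, hdle, Or.inr ⟨hd.2, ?_⟩⟩
    have : (d : ℝ) < n := lt_of_le_of_lt hdle hnx
    exact_mod_cast this

theorem prod_primes_le (M : ℕ) (σ y : ℝ) (hM : (M : ℝ) ≤ y) (hy1 : 1 ≤ y) (hσ : σ ≤ 1) :
    ∏ p ∈ (Icc 1 M).filter Nat.Prime, (1 + (p : ℝ) ^ (-σ)) ≤
      Real.exp (y ^ (1 - σ) * (1 + Real.log y)) := by
  have hy0 : 0 < y := by linarith
  calc ∏ p ∈ (Icc 1 M).filter Nat.Prime, (1 + (p : ℝ) ^ (-σ))
      ≤ ∏ p ∈ (Icc 1 M).filter Nat.Prime, Real.exp ((p : ℝ) ^ (-σ)) := by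
        refine prod_le_prod (fun p _ => by positivity) fun p _ => ?_
        have := Real.add_one_le_exp ((p : ℝ) ^ (-σ))
        linarith
    _ = Real.exp (∑ p ∈ (Icc 1 M).filter Nat.Prime, (p : ℝ) ^ (-σ)) := by
        rw [Real.exp_sum]
    _ ≤ Real.exp (y ^ (1 - σ) * (1 + Real.log y)) := by
        apply Real.exp_le_exp.2
        calc ∑ p ∈ (Icc 1 M).filter Nat.Prime, (p : ℝ) ^ (-σ)
            ≤ ∑ p ∈ Icc 1 M, (p : ℝ) ^ (-σ) :=
              sum_le_sum_of_subset_of_nonneg (filter_subset _ _) fun p _ _ => by positivity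
          _ ≤ ∑ p ∈ Icc 1 M, y ^ (1 - σ) * (p : ℝ)⁻¹ := by
              refine sum_le_sum fun p hp => ?_
              rw [mem_Icc] at hp
              have hp0 : (0 : ℝ) < p := by exact_mod_cast hp.1
              have hpy : (p : ℝ) ≤ y := le_trans (by exact_mod_cast hp.2) hM
              rw [show -σ = (1 - σ) + (-1) by ring, Real.rpow_add hp0, Real.rpow_neg_one]
              exact mul_le_mul_of_nonneg_right (Real.rpow_le_rpow hp0.le hpy (by linarith))
                (by positivity)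
          _ = y ^ (1 - σ) * ∑ p ∈ Icc 1 M, (p : ℝ)⁻¹ := by rw [mul_sum]
          _ ≤ y ^ (1 - σ) * (1 + Real.log y) := by
              apply mul_le_mul_of_nonneg_left _ (by positivity)
              have h1 := harmonic_le_one_add_log M
              rw [harmonic_eq_sum_Icc] at h1
              push_cast at h1
              refine h1.trans ?_
              rcases Nat.eq_zero_or_pos M with h0 | h0
              · subst h0
                simp
                exact Real.log_nonneg hy1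
              · have : Real.log M ≤ Real.log y :=
                  Real.log_le_log (by exact_mod_cast h0) hM
                linarith

/-- the count for a given bound `y` of the prime factors -/
theorem count_smooth (x : ℕ) (hx1 : 1 ≤ x) (y σ : ℝ) (hy1 : 1 ≤ y) (hσ0 : 0 ≤ σ) (hσ1 : σ ≤ 1)
    (S : Finset ℕ) (hS : ∀ n ∈ S, IsLehmer n ∧ n ≤ x ∧ ∀ q ∈ n.primeFactors, (q : ℝ) ≤ y) :
    (#S : ℝ) ≤ 2 * (Real.log x / Real.log 2 + 2) * ((Real.sqrt x * y) ^ σ *
      Real.exp (y ^ (1 - σ) * (1 + Real.log y))) := by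
  classical
  set M : ℕ := ⌊y⌋₊ with hM
  set F : Finset ℕ := (Icc 1 M).filter Nat.Prime with hF
  set X : ℝ := Real.sqrt x * y with hX
  have hX0 : 0 ≤ X := by positivity
  set D : Finset ℕ := (Icc 1 ⌊X⌋₊).filter fun d => Squarefree d ∧ d.primeFactors ⊆ F with hD
  have hDc : (#D : ℝ) ≤ X ^ σ * Real.exp (y ^ (1 - σ) * (1 + Real.log y)) := by
    refine (rankin F (fun p hp => (mem_filter.1 hp).2) σ X hσ0 hX0 D ?_).trans ?_
    · intro d hd
      rw [hD, mem_filter, mem_Icc] at hd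
      exact ⟨hd.2.1, hd.2.2, (Nat.le_floor_iff hX0).1 hd.1.2⟩
    · exact mul_le_mul_of_nonneg_left
        (prod_primes_le M σ y (Nat.floor_le (by linarith)) hy1 hσ1) (by positivity)
  have hk : ∀ n ∈ S, ∃ k, Idx n k := fun n hn => exists_idx (hS n hn).1
  choose! kk hkk using hk
  have hd : ∀ n ∈ S, ∃ d, d ∣ n ∧ (d : ℝ) ≤ X ∧ (d = n ∨ (x ≤ d ^ 2 ∧ d < n)) := by
    intro n hn
    obtain ⟨h1, h2, h3⟩ := hS n hn
    exact exists_half hx1 h1.squarefree.ne_zero h3 hy1
  choose! dd hdd using hd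
  set K : ℕ := Nat.log 2 x + 2 with hK
  have hkK : ∀ n ∈ S, kk n ∈ range K := by
    intro n hn
    obtain ⟨h1, h2, h3⟩ := hS n hn
    have h4 := (hkk n hn).index_le
    have h5 : n < 2 ^ (Nat.log 2 x + 1) :=
      lt_of_le_of_lt h2 (Nat.lt_pow_succ_log_self (by norm_num) x)
    have h6 := card_primeFactors_lt h1.squarefree h5
    rw [mem_range]
    omega
  have hcard : #S ≤ #((range K ×ˢ D) ×ˢ (univ : Finset Bool)) := by
    refine card_le_card_of_injOn (fun n => ((kk n, dd n), decide (dd n = n))) ?_ ?_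
    · intro n hn
      rw [mem_coe] at hn
      obtain ⟨h1, h2, h3⟩ := hS n hn
      obtain ⟨d1, d2, d3⟩ := hdd n hn
      have hn0 := h1.squarefree.ne_zero
      rw [mem_coe, mem_product, mem_product]
      refine ⟨⟨hkK n hn, ?_⟩, mem_univ _⟩
      rw [hD, mem_filter, mem_Icc]
      refine ⟨⟨Nat.pos_of_dvd_of_pos d1 (Nat.pos_of_ne_zero hn0), Nat.le_floor d2⟩,
        h1.squarefree.squarefree_of_dvd d1, ?_⟩
      intro q hq
      have hqn : q ∈ n.primeFactors := Nat.primeFactors_mono d1 hn0 hq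
      have hqp := Nat.prime_of_mem_primeFactors hqn
      rw [hF, mem_filter, mem_Icc]
      exact ⟨⟨hqp.one_lt.le, Nat.le_floor (h3 q hqn)⟩, hqp⟩
    · intro n hn m hm hnm
      rw [mem_coe] at hn hm
      simp only [Prod.mk.injEq, decide_eq_decide] at hnm
      obtain ⟨⟨e1, e2⟩, e3⟩ := hnm
      by_cases hc : dd n = n
      · have := e3.1 hc
        rw [← hc, ← this, e2]
      · have hc' : ¬ dd m = m := fun h => hc (e3.2 h)
        obtain ⟨a1, a2, a3⟩ := hdd n hn
        obtain ⟨b1, b2, b3⟩ := hdd m hm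
        obtain ⟨a4, a5⟩ := a3.resolve_left hc
        obtain ⟨b4, b5⟩ := b3.resolve_left hc'
        have hkn := hkk n hn
        have hkm := hkk m hm
        rw [← e1] at hkm
        rw [← e2] at b1 b5
        exact eq_of_divisor hkn hkm (hS n hn).2.1 (hS m hm).2.1 a1 b1 a5 b5 a4
  rw [card_product, card_product, card_range, card_univ, Fintype.card_bool] at hcard
  have hKle : (K : ℝ) ≤ Real.log x / Real.log 2 + 2 := by
    rw [hK]
    push_cast
    have h1 : 2 ^ Nat.log 2 x ≤ x := Nat.pow_log_le_self 2 (by omega)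
    have h2 : (2 : ℝ) ^ Nat.log 2 x ≤ x := by exact_mod_cast h1
    have h3 := Real.log_le_log (by positivity) h2
    rw [Real.log_pow] at h3
    have h4 : (0 : ℝ) < Real.log 2 := Real.log_pos (by norm_num)
    have h5 : (Nat.log 2 x : ℝ) ≤ Real.log x / Real.log 2 := by
      rw [le_div_iff₀ h4]
      exact h3
    linarith
  calc (#S : ℝ) ≤ ((K * #D * 2 : ℕ) : ℝ) := by exact_mod_cast hcard
    _ = 2 * (K : ℝ) * #D := by push_cast; ring
    _ ≤ _ := by
        have h0 : (0 : ℝ) ≤ Real.log x / Real.log 2 + 2 := le_trans (Nat.cast_nonneg _) hKle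
        exact mul_le_mul (by linarith) hDc (Nat.cast_nonneg _) (by positivity)

/-- For every `A` there is `δ > 0` such that at most `x ^ (1/2 - δ)` Lehmer numbers `n ≤ x` have all
their prime factors at most `(log x) ^ A`. -/
theorem smallP (A : ℝ) (hA : 1 ≤ A) : ∃ δ : ℝ, 0 < δ ∧ ∃ x₀ : ℕ, ∀ x : ℕ, x₀ ≤ x →
    ∀ S : Finset ℕ, (∀ n ∈ S, IsLehmer n ∧ n ≤ x ∧
      ∀ q ∈ n.primeFactors, (q : ℝ) ≤ Real.log x ^ A) →
    (#S : ℝ) ≤ (x : ℝ) ^ ((1 : ℝ) / 2 - δ) := by
  have hA0 : 0 < A := by linarith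
  refine ⟨1 / (8 * A), by positivity, ⌈Real.exp ((128 * A ^ 2) ^ 4)⌉₊, ?_⟩
  intro x hx S hS
  have hxe : Real.exp ((128 * A ^ 2) ^ 4) ≤ x := (Nat.le_ceil _).trans (by exact_mod_cast hx)
  have hx0 : (0 : ℝ) < x := lt_of_lt_of_le (Real.exp_pos _) hxe
  obtain ⟨L, hL⟩ : ∃ L, L = Real.log x := ⟨_, rfl⟩
  have hLb : (128 * A ^ 2) ^ 4 ≤ L := by
    rw [hL, Real.le_log_iff_exp_le hx0]
    exact hxe
  have hAA : (1 : ℝ) ≤ 128 * A ^ 2 := by nlinarith
  have hL1 : 1 ≤ L := le_trans (one_le_pow₀ hAA) hLb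
  have hL0 : 0 < L := by linarith
  have hlog0 : 0 ≤ Real.log L := Real.log_nonneg hL1
  have hx1 : 1 ≤ x := by
    have : (0 : ℕ) < x := by exact_mod_cast hx0
    omega
  set σ : ℝ := 1 - 1 / (2 * A) with hσ
  have hσ1 : σ ≤ 1 := by rw [hσ]; have : 0 < 1 / (2 * A) := by positivity
                         linarith
  have hσ0 : 0 ≤ σ := by
    rw [hσ]
    have : 1 / (2 * A) ≤ 1 := by rw [div_le_one (by positivity)]; linarith
    linarith
  have hy1 : 1 ≤ L ^ A := Real.one_le_rpow hL1 hA0.le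
  rw [← hL] at hS
  have h1 := count_smooth x hx1 (L ^ A) σ hy1 hσ0 hσ1 S hS
  rw [← hL] at h1
  refine h1.trans ?_
  have hlogy : Real.log (L ^ A) = A * Real.log L := Real.log_rpow hL0 A
  have hypow : (L ^ A) ^ (1 - σ) = L ^ ((1 : ℝ) / 2) := by
    rw [← Real.rpow_mul hL0.le, hσ]
    congr 1
    field_simp
    ring
  have hlog2 : (1 : ℝ) / 2 < Real.log 2 := by
    have := Real.log_two_gt_d9
    linarith
  have e1 : 2 * (L / Real.log 2 + 2) ≤ Real.exp (3 + Real.log L) := by
    have h2 : L / Real.log 2 ≤ 2 * L := by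
      rw [div_le_iff₀ (by linarith)]
      nlinarith
    have h3 : Real.exp (3 + Real.log L) = Real.exp 3 * L := by
      rw [Real.exp_add, Real.exp_log hL0]
    have h4 : (8 : ℝ) ≤ Real.exp 3 := by
      have h5 : Real.exp 3 = Real.exp 1 ^ 3 := by rw [← Real.exp_nat_mul]; norm_num
      have h6 : (2 : ℝ) ≤ Real.exp 1 := by
        have := Real.add_one_le_exp (1 : ℝ)
        linarith
      rw [h5]
      calc (8 : ℝ) = 2 ^ 3 := by norm_num
        _ ≤ Real.exp 1 ^ 3 := pow_le_pow_left₀ (by norm_num) h6 3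
    rw [h3]
    nlinarith
  have e2 : (Real.sqrt x * L ^ A) ^ σ ≤ Real.exp (σ * (L / 2) + A * Real.log L) := by
    have h2 : Real.sqrt x * L ^ A = Real.exp (L / 2 + A * Real.log L) := by
      rw [Real.exp_add, mul_comm A, ← Real.rpow_def_of_pos hL0, hL, ← Real.log_sqrt hx0.le,
        Real.exp_log (Real.sqrt_pos.2 hx0)]
    rw [h2, ← Real.exp_mul]
    apply Real.exp_le_exp.2
    have h3 : 0 ≤ A * Real.log L := by positivity
    nlinarith
  have e3 : Real.exp ((L ^ A) ^ (1 - σ) * (1 + Real.log (L ^ A))) =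
      Real.exp (L ^ ((1 : ℝ) / 2) * (1 + A * Real.log L)) := by
    rw [hypow, hlogy]
  have e4 : (x : ℝ) ^ ((1 : ℝ) / 2 - 1 / (8 * A)) = Real.exp (L * (1 / 2 - 1 / (8 * A))) := by
    rw [Real.rpow_def_of_pos hx0, hL]
  rw [e3, e4]
  have hexp0 := Real.exp_pos (L ^ ((1 : ℝ) / 2) * (1 + A * Real.log L))
  calc 2 * (L / Real.log 2 + 2) * ((Real.sqrt x * L ^ A) ^ σ *
        Real.exp (L ^ ((1 : ℝ) / 2) * (1 + A * Real.log L)))
      ≤ Real.exp (3 + Real.log L) * (Real.exp (σ * (L / 2) + A * Real.log L) *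
        Real.exp (L ^ ((1 : ℝ) / 2) * (1 + A * Real.log L))) := by
        apply mul_le_mul e1 (mul_le_mul_of_nonneg_right e2 hexp0.le) (by positivity)
          (Real.exp_pos _).le
    _ = Real.exp (3 + Real.log L + (σ * (L / 2) + A * Real.log L +
          L ^ ((1 : ℝ) / 2) * (1 + A * Real.log L))) := by
        rw [← Real.exp_add, ← Real.exp_add]
    _ ≤ _ := by
        apply Real.exp_le_exp.2
        have q1 : Real.log L ≤ 4 * L ^ ((1 : ℝ) / 4) := by
          have := Real.log_le_rpow_div hL0.le (show (0 : ℝ) < 1 / 4 by norm_num)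
          linarith
        set B := L ^ ((1 : ℝ) / 4) with hB
        have hB1 : 1 ≤ B := Real.one_le_rpow hL1 (by norm_num)
        have q2 : L ^ ((1 : ℝ) / 2) = B ^ 2 := by
          rw [hB, ← Real.rpow_natCast, ← Real.rpow_mul hL0.le]
          norm_num
        have q3 : L = B ^ 4 := by
          rw [hB, ← Real.rpow_natCast, ← Real.rpow_mul hL0.le]
          norm_num
        have q4 : 128 * A ^ 2 ≤ B := by
          have h5 : (128 * A ^ 2) ^ 4 ≤ B ^ 4 := q3 ▸ hLb
          exact le_of_pow_le_pow_left₀ (by norm_num) (by linarith) h5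
        rw [q2]
        have q5 : σ * (L / 2) = L / 2 - L / (4 * A) := by
          rw [hσ]
          field_simp
          ring
        rw [q5]
        have q6 : L * (1 / 2 - 1 / (8 * A)) = L / 2 - L / (8 * A) := by ring
        rw [q6]
        have q7 : L / (4 * A) = L / (8 * A) + L / (8 * A) := by
          field_simp
          ring
        have q8 : 16 * A * B ^ 3 ≤ L / (8 * A) := by
          rw [le_div_iff₀ (by positivity)]
          calc 16 * A * B ^ 3 * (8 * A) = 128 * A ^ 2 * B ^ 3 := by ring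
            _ ≤ B * B ^ 3 := mul_le_mul_of_nonneg_right q4 (by positivity)
            _ = L := by rw [q3]; ring
        have hB2 : B ≤ B ^ 3 := by nlinarith [sq_nonneg (B - 1), mul_pos (show 0 < B by linarith) (show 0 < B by linarith)]
        have hB3 : B ^ 2 ≤ B ^ 3 := by nlinarith [sq_nonneg B]
        have hB4 : 1 ≤ B ^ 3 := by linarith
        have q9 : B ^ 2 * (1 + A * Real.log L) ≤ B ^ 3 + 4 * A * B ^ 3 := by
          have : A * Real.log L ≤ A * (4 * B) := mul_le_mul_of_nonneg_left q1 hA0.le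
          calc B ^ 2 * (1 + A * Real.log L) ≤ B ^ 2 * (1 + A * (4 * B)) :=
                mul_le_mul_of_nonneg_left (by linarith) (by positivity)
            _ = B ^ 2 + 4 * A * B ^ 3 := by ring
            _ ≤ _ := by linarith
        have q10 : A * Real.log L ≤ 4 * A * B ^ 3 := by
          calc A * Real.log L ≤ A * (4 * B) := mul_le_mul_of_nonneg_left q1 hA0.le
            _ = 4 * A * B := by ring
            _ ≤ 4 * A * B ^ 3 := mul_le_mul_of_nonneg_left hB2 (by positivity)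
        have q11 : B ^ 3 ≤ A * B ^ 3 := le_mul_of_one_le_left (by positivity) hA
        linarith

end Pool.Agent.Helper13.SmallP
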